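import Mathlib

set_option autoImplicit false

namespace Pool.Agent.JordanPI

variable {F : Type*} [Field F] {R : Type*} [Ring R] [Algebra F R]

/-- The smallest subspace containing `s` and closed under `a b + b a`. -/
def jclosure (F : Type*) [Field F] {R : Type*} [Ring R] [Algebra F R] (s : Set R) :
    Submodule F R :=
  sInf {J : Submodule F R | s ⊆ J ∧ ∀ a ∈ J, ∀ b ∈ J, a * b + b * a ∈ J}

theorem subset_jclosure (s : Set R) : s ⊆ jclosure F s := by
  intro x hx
  rw [SetLike.mem_coe, jclosure, Submodule.mem_sInf]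
  intro J hJ
  exact hJ.1 hx

theorem jclosure_mul {s : Set R} {a b : R} (ha : a ∈ jclosure F s) (hb : b ∈ jclosure F s) :
    a * b + b * a ∈ jclosure F s := by
  rw [jclosure, Submodule.mem_sInf] at ha hb ⊢
  intro J hJ
  exact hJ.2 a (ha J hJ) b (hb J hJ)

theorem jclosure_le {s : Set R} {J : Submodule F R} (hs : s ⊆ J)
    (hJ : ∀ a ∈ J, ∀ b ∈ J, a * b + b * a ∈ J) : jclosure F s ≤ J := by
  rw [jclosure]
  exact sInf_le ⟨hs, hJ⟩

theorem jclosure_mono {s t : Set R} (h : s ⊆ t) : jclosure F s ≤ jclosure F t :=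
  jclosure_le (h.trans (subset_jclosure t)) fun _ ha _ hb => jclosure_mul ha hb

/-- Induction for the Jordan closure, in a form that remembers membership. -/
theorem jclosure_induction {s : Set R} {p : R → Prop} (hs : ∀ a ∈ s, p a) (h0 : p 0)
    (hadd : ∀ a b, p a → p b → p (a + b)) (hsmul : ∀ (c : F) a, p a → p (c • a))
    (hmul : ∀ a b, a ∈ jclosure F s → b ∈ jclosure F s → p a → p b → p (a * b + b * a))
    {a : R} (ha : a ∈ jclosure F s) : p a := by
  let J : Submodule F R :=
    { carrier := {a | a ∈ jclosure F s ∧ p a}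
      zero_mem' := ⟨Submodule.zero_mem _, h0⟩
      add_mem' := fun {a b} ha hb => ⟨Submodule.add_mem _ ha.1 hb.1, hadd a b ha.2 hb.2⟩
      smul_mem' := fun c a ha => ⟨Submodule.smul_mem _ c ha.1, hsmul c a ha.2⟩ }
  have h : jclosure F s ≤ J :=
    jclosure_le (fun a ha => ⟨subset_jclosure s ha, hs a ha⟩)
      fun a ha b hb => ⟨jclosure_mul ha.1 hb.1, hmul a b ha.1 hb.1 ha.2 hb.2⟩
  exact (h ha).2

section Span

variable {n : ℕ} (x : Fin n → R)

/-- The unital Jordan algebra generated by the `x i`. -/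
abbrev J1 (F : Type*) [Field F] {R : Type*} [Ring R] [Algebra F R] {n : ℕ} (x : Fin n → R) :
    Submodule F R := jclosure F (insert 1 (Set.range x))

/-- The product of the `x i` along a list. -/
abbrev lp {R : Type*} [Ring R] {n : ℕ} (x : Fin n → R) (L : List (Fin n)) : R := (L.map x).prod

/-- `V k` is the span of the `x_L b` with `L` of length at most `k` and `b` in the Jordan algebra. -/
def V (F : Type*) [Field F] {R : Type*} [Ring R] [Algebra F R] {n : ℕ} (x : Fin n → R) (k : ℕ) :
    Submodule F R :=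
  Submodule.span F {r | ∃ L : List (Fin n), L.length ≤ k ∧ ∃ b ∈ J1 F x, r = lp x L * b}

variable {x}

theorem one_mem_J1 : (1 : R) ∈ J1 F x := subset_jclosure _ (Set.mem_insert _ _)

theorem x_mem_J1 (i : Fin n) : x i ∈ J1 F x :=
  subset_jclosure _ (Set.mem_insert_of_mem _ ⟨i, rfl⟩)

theorem V_mono {k l : ℕ} (h : k ≤ l) : V F x k ≤ V F x l := by
  refine Submodule.span_mono ?_
  rintro r ⟨L, hL, b, hb, rfl⟩
  exact ⟨L, hL.trans h, b, hb, rfl⟩

theorem mem_V {k : ℕ} {L : List (Fin n)} (hL : L.length ≤ k) {b : R} (hb : b ∈ J1 F x) :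
    lp x L * b ∈ V F x k :=
  Submodule.subset_span ⟨L, hL, b, hb, rfl⟩

theorem J1_le_V (k : ℕ) : J1 F x ≤ V F x k := by
  intro b hb
  have := mem_V (F := F) (k := k) (L := []) (Nat.zero_le _) hb
  simpa [lp] using this

/-- Left multiplication by a word. -/
theorem lp_mul_mem {j k l : ℕ} {L : List (Fin n)} (hL : L.length ≤ j) (hjk : j + k ≤ l) {r : R}
    (hr : r ∈ V F x k) : lp x L * r ∈ V F x l := by
  induction hr using Submodule.span_induction with
  | mem r h =>
    obtain ⟨L', hL', b, hb, rfl⟩ := h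
    have : lp x L * (lp x L' * b) = lp x (L ++ L') * b := by
      simp [lp, mul_assoc]
    rw [this]
    refine mem_V ?_ hb
    rw [List.length_append]
    omega
  | zero => rw [mul_zero]; exact Submodule.zero_mem _
  | add a b _ _ ha hb => rw [mul_add]; exact Submodule.add_mem _ ha hb
  | smul c a _ ha => rw [mul_smul_comm]; exact Submodule.smul_mem _ c ha

theorem x_mul_mem {k : ℕ} (i : Fin n) {r : R} (hr : r ∈ V F x k) : x i * r ∈ V F x (k + 1) := by
  have := lp_mul_mem (F := F) (x := x) (j := 1) (k := k) (l := k + 1) (L := [i]) (by simp)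
    (by omega) hr
  simpa [lp] using this

/-- Commutators of elements of the Jordan algebra lie in `V 1`. -/
theorem comm_mem {c b : R} (hc : c ∈ J1 F x) (hb : b ∈ J1 F x) : c * b - b * c ∈ V F x 1 := by
  revert b
  refine jclosure_induction (F := F) (p := fun c => ∀ {b : R}, b ∈ J1 F x → c * b - b * c ∈ V F x 1)
    ?_ ?_ ?_ ?_ ?_ hc
  · rintro a ha b hb
    rcases ha with rfl | ⟨i, rfl⟩
    · simp
    · have h1 : x i * b - b * x i = (2 : F) • (x i * b) - (x i * b + b * x i) := by
        rw [two_smul]; abel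
      rw [h1]
      refine Submodule.sub_mem _ (Submodule.smul_mem _ _ ?_) ?_
      · exact x_mul_mem i (J1_le_V 0 hb)
      · exact J1_le_V 1 (jclosure_mul (x_mem_J1 i) hb)
  · intro b _
    simp
  · intro a a' h h' b hb
    have : (a + a') * b - b * (a + a') = (a * b - b * a) + (a' * b - b * a') := by
      noncomm_ring
    rw [this]
    exact Submodule.add_mem _ (h hb) (h' hb)
  · intro c a h b hb
    have : (c • a) * b - b * (c • a) = c • (a * b - b * a) := by
      rw [smul_mul_assoc, mul_smul_comm, smul_sub]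
    rw [this]
    exact Submodule.smul_mem _ _ (h hb)
  · intro a a' ha ha' h h' b hb
    have : (a * a' + a' * a) * b - b * (a * a' + a' * a) =
        (a * (a' * b + b * a') - (a' * b + b * a') * a) +
        (a' * (b * a + a * b) - (b * a + a * b) * a') := by
      noncomm_ring
    rw [this]
    exact Submodule.add_mem _ (h (jclosure_mul ha' hb)) (h' (jclosure_mul hb ha))

variable (h2 : (2 : F) ≠ 0)
include h2

theorem half_add_half (a : R) : (2⁻¹ : F) • a + (2⁻¹ : F) • a = a := by
  rw [← add_smul]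
  have : (2⁻¹ : F) + 2⁻¹ = 1 := by field_simp; norm_num
  rw [this, one_smul]

theorem mul_mem_V1 {c b : R} (hc : c ∈ J1 F x) (hb : b ∈ J1 F x) : c * b ∈ V F x 1 := by
  have : c * b = (2⁻¹ : F) • ((c * b + b * c) + (c * b - b * c)) := by
    rw [show (c * b + b * c) + (c * b - b * c) = c * b + c * b by abel, smul_add,
      half_add_half h2]
  rw [this]
  exact Submodule.smul_mem _ _ (Submodule.add_mem _ (J1_le_V 1 (jclosure_mul hc hb)) (comm_mem hc hb))

theorem V_mul_mem {k : ℕ} {r b : R} (hr : r ∈ V F x k) (hb : b ∈ J1 F x) :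
    r * b ∈ V F x (k + 1) := by
  induction hr using Submodule.span_induction with
  | mem r h =>
    obtain ⟨L, hL, c, hc, rfl⟩ := h
    rw [mul_assoc]
    exact lp_mul_mem hL le_rfl (mul_mem_V1 h2 hc hb)
  | zero => rw [zero_mul]; exact Submodule.zero_mem _
  | add a b _ _ ha hb => rw [add_mul]; exact Submodule.add_mem _ ha hb
  | smul c a _ ha => rw [smul_mul_assoc]; exact Submodule.smul_mem _ c ha

omit h2 in
theorem mul_lp_mem {c : R} (L : List (Fin n)) (hc : c ∈ J1 F x) :
    c * lp x L ∈ V F x L.length := by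
  induction L generalizing c with
  | nil => simpa [lp] using J1_le_V 0 hc
  | cons i L ih =>
    have : c * lp x (i :: L) = (c * x i + x i * c) * lp x L - x i * (c * lp x L) := by
      simp only [lp, List.map_cons, List.prod_cons]
      noncomm_ring
    rw [this, List.length_cons]
    refine Submodule.sub_mem _ ?_ (x_mul_mem i (ih hc))
    exact V_mono (Nat.le_succ _) (ih (jclosure_mul hc (x_mem_J1 i)))

/-- Swapping two adjacent letters changes the sign modulo shorter words. -/
theorem swap_mem (L₁ L₂ : List (Fin n)) (i j : Fin n) {b : R} (hb : b ∈ J1 F x) :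
    lp x (L₁ ++ i :: j :: L₂) * b + lp x (L₁ ++ j :: i :: L₂) * b ∈
      V F x (L₁.length + L₂.length + 1) := by
  have : lp x (L₁ ++ i :: j :: L₂) * b + lp x (L₁ ++ j :: i :: L₂) * b =
      lp x L₁ * (((x i * x j + x j * x i) * lp x L₂) * b) := by
    simp only [lp, List.map_append, List.map_cons, List.prod_append, List.prod_cons]
    noncomm_ring
  rw [this]
  refine lp_mul_mem (k := L₂.length + 1) le_rfl (by omega) ?_
  exact V_mul_mem h2 (mul_lp_mem L₂ (jclosure_mul (x_mem_J1 i) (x_mem_J1 j))) hb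

/-- A word with a repeated letter reduces to shorter words. -/
theorem dup_mem (L₁ L₂ L₃ : List (Fin n)) (i : Fin n) {b : R} (hb : b ∈ J1 F x) :
    lp x (L₁ ++ i :: (L₂ ++ i :: L₃)) * b ∈ V F x (L₁.length + L₂.length + L₃.length + 1) := by
  induction L₂ generalizing L₁ with
  | nil =>
    have h := swap_mem h2 L₁ L₃ i i hb
    have e : lp x (L₁ ++ i :: ([] ++ i :: L₃)) * b =
        (2⁻¹ : F) • (lp x (L₁ ++ i :: i :: L₃) * b + lp x (L₁ ++ i :: i :: L₃) * b) := by
      rw [smul_add, half_add_half h2]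
      rfl
    rw [e]
    exact Submodule.smul_mem _ _ (V_mono (by simp) h)
  | cons j L₂ ih =>
    have h := swap_mem h2 L₁ (L₂ ++ i :: L₃) i j hb
    have h' := ih (L₁ ++ [j])
    have e : lp x (L₁ ++ i :: (j :: L₂ ++ i :: L₃)) * b =
        (lp x (L₁ ++ i :: j :: (L₂ ++ i :: L₃)) * b + lp x (L₁ ++ j :: i :: (L₂ ++ i :: L₃)) * b)
        - lp x (L₁ ++ [j] ++ i :: (L₂ ++ i :: L₃)) * b := by
      simp
    rw [e]
    refine Submodule.sub_mem _ (V_mono ?_ h) (V_mono ?_ h')
    · simp; omega
    · simp; omega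

theorem V_succ_le : V F x (n + 1) ≤ V F x n := by
  refine Submodule.span_le.mpr ?_
  rintro r ⟨L, hL, b, hb, rfl⟩
  rcases Nat.lt_or_ge L.length (n + 1) with h | h
  · exact mem_V (by omega) hb
  · have hlen : L.length = n + 1 := le_antisymm hL h
    have hnd : ¬ L.Nodup := by
      intro hnd
      have := hnd.length_le_card
      rw [Fintype.card_fin] at this
      omega
    rw [← List.exists_duplicate_iff_not_nodup] at hnd
    obtain ⟨i, hi⟩ := hnd
    rw [List.duplicate_iff_sublist] at hi
    have : ∃ L₁ L₂ L₃ : List (Fin n), L = L₁ ++ i :: (L₂ ++ i :: L₃) := by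
      rw [List.cons_sublist_iff] at hi
      obtain ⟨r₁, r₂, rfl, h1, h3⟩ := hi
      obtain ⟨s, t, rfl⟩ := List.append_of_mem h1
      obtain ⟨s', t', rfl⟩ := List.append_of_mem (List.singleton_sublist.mp h3)
      exact ⟨s, t ++ s', t', by simp⟩
    obtain ⟨L₁, L₂, L₃, rfl⟩ := this
    refine V_mono ?_ (dup_mem h2 L₁ L₂ L₃ i hb)
    simp at hlen
    omega

theorem V_mul_x {r : R} (i : Fin n) (hr : r ∈ V F x n) : r * x i ∈ V F x n :=
  V_succ_le h2 (V_mul_mem h2 hr (x_mem_J1 i))

theorem V_mul_lp {r : R} (L : List (Fin n)) (hr : r ∈ V F x n) : r * lp x L ∈ V F x n := by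
  induction L generalizing r with
  | nil => simpa [lp] using hr
  | cons i L ih =>
    have : r * lp x (i :: L) = (r * x i) * lp x L := by simp [lp, mul_assoc]
    rw [this]
    exact ih (V_mul_x h2 i hr)

/-- The associative envelope of a finitely generated special Jordan algebra is a finite sum of
translates of the Jordan algebra. -/
theorem mem_V_of_mem_adjoin {r : R} (hr : r ∈ Algebra.adjoin F (Set.range x)) : r ∈ V F x n := by
  have hr' : ∀ s ∈ V F x n, s * r ∈ V F x n := by
    induction hr using Algebra.adjoin_induction with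
    | mem y hy =>
      obtain ⟨i, rfl⟩ := hy
      exact fun s hs => V_mul_x h2 i hs
    | algebraMap c =>
      intro s hs
      rw [← Algebra.commutes, ← Algebra.smul_def]
      exact Submodule.smul_mem _ _ hs
    | add y z _ _ hy hz =>
      intro s hs
      rw [mul_add]
      exact Submodule.add_mem _ (hy s hs) (hz s hs)
    | mul y z _ _ hy hz =>
      intro s hs
      rw [← mul_assoc]
      exact hz _ (hy _ hs)
  have := hr' 1 (J1_le_V n one_mem_J1)
  simpa using this

end Span

end Pool.Agent.JordanPI
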