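import Mathlib

set_option autoImplicit false

open Finset

namespace Pool.Agent.JordanPI

variable {α : Type*} [LinearOrder α]

/-- `Pat d w`: the word `w` is a product of `d` nonempty blocks, the first letter of each block being
larger than every letter to its right. -/
def Pat : ℕ → List α → Prop
  | 0, w => w = []
  | d + 1, w => ∃ (a : α) (A w' : List α), w = a :: (A ++ w') ∧ (∀ y ∈ A ++ w', y < a) ∧ Pat d w'

/-- Some factor of `w` satisfies `Pat d`. -/
def HasPat (d : ℕ) (w : List α) : Prop := ∃ u p v : List α, w = u ++ p ++ v ∧ Pat d p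

theorem hasPat_zero (w : List α) : HasPat 0 w := ⟨w, [], [], by simp, rfl⟩

theorem hasPat_left {d : ℕ} {u : List α} (v : List α) (h : HasPat d u) : HasPat d (u ++ v) := by
  obtain ⟨a, p, b, rfl, hp⟩ := h
  exact ⟨a, p, b ++ v, by simp, hp⟩

theorem hasPat_succ {d : ℕ} {u v : List α} {m : α} (hm : ∀ y ∈ v, y < m) (h : HasPat d v) :
    HasPat (d + 1) (u ++ m :: v) := by
  obtain ⟨a, p, b, rfl, hp⟩ := h
  refine ⟨u, m :: (a ++ p), b, by simp, m, a, p, rfl, ?_, hp⟩
  intro y hy
  apply hm
  simp only [List.mem_append] at hy ⊢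
  tauto

/-- The arrangements of a finite set as lists. -/
noncomputable def arr (A : Finset α) : Finset (List α) := A.toList.permutations.toFinset

theorem mem_arr {A : Finset α} {w : List α} : w ∈ arr A ↔ w.Nodup ∧ w.toFinset = A := by
  rw [arr, List.mem_toFinset, List.mem_permutations]
  constructor
  · intro h
    refine ⟨h.nodup_iff.mpr A.nodup_toList, ?_⟩
    rw [List.toFinset_eq_of_perm _ _ h, Finset.toList_toFinset]
  · rintro ⟨h1, h2⟩
    rw [← h2]
    exact (List.toFinset_toList h1).symm

theorem card_arr_le (A : Finset α) : (arr A).card ≤ A.card.factorial := by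
  rw [arr]
  refine (List.toFinset_card_le _).trans ?_
  rw [List.length_permutations, Finset.length_toList]

open Classical in
/-- The arrangements of `A` avoiding the pattern. -/
noncomputable def avl (d : ℕ) (A : Finset α) : Finset (List α) :=
  (arr A).filter fun w => ¬ HasPat d w

theorem mem_avl {d : ℕ} {A : Finset α} {w : List α} :
    w ∈ avl d A ↔ (w.Nodup ∧ w.toFinset = A) ∧ ¬ HasPat d w := by
  classical
  rw [avl, Finset.mem_filter, mem_arr]

theorem card_avl_le (d : ℕ) (A : Finset α) : (avl d A).card ≤ A.card.factorial := by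
  classical
  exact (Finset.card_filter_le _ _).trans (card_arr_le A)

theorem avl_subset (d : ℕ) (A : Finset α) (m : α) (hm : m ∈ A) (hmax : ∀ y ∈ A, y ≤ m) :
    avl (d + 1) A ⊆ (A.erase m).powerset.biUnion fun T =>
      ((avl (d + 1) (A.erase m \ T)) ×ˢ (avl d T)).image fun p => p.1 ++ m :: p.2 := by
  intro w hw
  rw [mem_avl] at hw
  obtain ⟨⟨hnd, hA⟩, hav⟩ := hw
  have hmw : m ∈ w := by
    rw [← List.mem_toFinset, hA]; exact hm
  obtain ⟨u, v, rfl⟩ := List.append_of_mem hmw
  rw [List.nodup_append] at hnd
  obtain ⟨hu, hmv, hdisj⟩ := hnd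
  rw [List.nodup_cons] at hmv
  have hvm : ∀ y ∈ v, y < m := by
    intro y hy
    have h1 : y ∈ A := by
      rw [← hA]; simp [hy]
    refine lt_of_le_of_ne (hmax y h1) ?_
    rintro rfl
    exact hmv.1 hy
  have hmu : m ∉ u := fun h => hdisj m h m (by simp) rfl
  rw [Finset.mem_biUnion]
  refine ⟨v.toFinset, ?_, ?_⟩
  · rw [Finset.mem_powerset]
    intro y hy
    rw [List.mem_toFinset] at hy
    rw [Finset.mem_erase]
    exact ⟨(hvm y hy).ne, by rw [← hA]; simp [hy]⟩
  · rw [Finset.mem_image]
    refine ⟨(u, v), ?_, rfl⟩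
    rw [Finset.mem_product, mem_avl, mem_avl]
    refine ⟨⟨⟨hu, ?_⟩, ?_⟩, ⟨⟨hmv.2, rfl⟩, ?_⟩⟩
    · ext y
      rw [Finset.mem_sdiff, Finset.mem_erase, List.mem_toFinset, List.mem_toFinset, ← hA,
        List.mem_toFinset, List.mem_append, List.mem_cons]
      constructor
      · intro h
        exact ⟨⟨fun e => hmu (e ▸ h), Or.inl h⟩, fun h' => hdisj y h y (by simp [h']) rfl⟩
      · rintro ⟨⟨h1, h2⟩, h3⟩
        tauto
    · intro h
      exact hav (hasPat_left _ h)
    · intro h
      exact hav (hasPat_succ hvm h)

theorem card_avl_succ_le (d : ℕ) (A : Finset α) (m : α) (hm : m ∈ A) (hmax : ∀ y ∈ A, y ≤ m) :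
    (avl (d + 1) A).card ≤
      ∑ T ∈ (A.erase m).powerset, (avl (d + 1) (A.erase m \ T)).card * (avl d T).card := by
  refine (Finset.card_le_card (avl_subset d A m hm hmax)).trans ?_
  refine Finset.card_biUnion_le.trans ?_
  refine Finset.sum_le_sum fun T _ => ?_
  refine Finset.card_image_le.trans ?_
  rw [Finset.card_product]

theorem sum_bound (N : ℕ) :
    ∑ j ∈ Finset.range (N + 1), (N.choose j : ℝ) * ((N - j).factorial * j.factorial / 2 ^ j) ≤
      2 * N.factorial := by
  have h : ∀ j ∈ Finset.range (N + 1),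
      (N.choose j : ℝ) * ((N - j).factorial * j.factorial / 2 ^ j) =
      N.factorial * (1 / 2 : ℝ) ^ j := by
    intro j hj
    rw [Finset.mem_range] at hj
    have hc := Nat.choose_mul_factorial_mul_factorial (n := N) (k := j) (by omega)
    have hc' : (N.choose j : ℝ) * j.factorial * (N - j).factorial = N.factorial := by
      exact_mod_cast hc
    rw [← hc']
    rw [one_div, inv_pow]
    field_simp
  rw [Finset.sum_congr rfl h, ← Finset.mul_sum]
  have hg : ∑ j ∈ Finset.range (N + 1), (1 / 2 : ℝ) ^ j ≤ 2 := by
    have := geom_sum_eq (x := (1 / 2 : ℝ)) (by norm_num) (N + 1)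
    rw [this]
    have hp : (0 : ℝ) < (1 / 2) ^ (N + 1) := by positivity
    rw [div_le_iff_of_neg (by norm_num)]
    linarith
  have hN : (0 : ℝ) ≤ N.factorial := by positivity
  nlinarith

/-- The number of arrangements avoiding the pattern is smaller than `N!` by more than any
exponential factor. -/
theorem card_avl_bound (d : ℕ) : ∀ M : ℕ, 0 < M → ∃ K : ℝ, 0 ≤ K ∧
    ∀ A : Finset α, ((avl d A).card : ℝ) ≤ K * A.card.factorial / (M : ℝ) ^ A.card := by
  induction d with
  | zero =>
    intro M hM
    refine ⟨0, le_rfl, fun A => ?_⟩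
    have : avl 0 A = ∅ := by
      rw [Finset.eq_empty_iff_forall_notMem]
      intro w hw
      rw [mem_avl] at hw
      exact hw.2 (hasPat_zero w)
    rw [this]
    simp
  | succ d ih =>
    intro M hM
    obtain ⟨K, hK0, hK⟩ := ih (2 * M) (by omega)
    obtain ⟨B, hB⟩ := exists_nat_ge (2 * K * M)
    have hM1 : (1 : ℝ) ≤ M := by exact_mod_cast hM
    have hMpos : (0 : ℝ) < M := by linarith
    refine ⟨(M : ℝ) ^ B, by positivity, ?_⟩
    intro A
    induction hN : A.card using Nat.strong_induction_on generalizing A with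
    | _ N ihN =>
      subst hN
      rcases le_or_gt A.card B with hsmall | hbig
      · -- small case
        rw [le_div_iff₀ (by positivity)]
        have h1 : ((avl (d + 1) A).card : ℝ) ≤ A.card.factorial := by
          exact_mod_cast card_avl_le (d + 1) A
        have h2 : (M : ℝ) ^ A.card ≤ (M : ℝ) ^ B := pow_le_pow_right₀ hM1 hsmall
        calc ((avl (d + 1) A).card : ℝ) * (M : ℝ) ^ A.card
            ≤ A.card.factorial * (M : ℝ) ^ B := by gcongr
          _ = (M : ℝ) ^ B * A.card.factorial := by ring
      · have hne : A.Nonempty := by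
          rw [← Finset.card_pos]; omega
        set m := A.max' hne with hm
        have hmA : m ∈ A := A.max'_mem hne
        have hmax : ∀ y ∈ A, y ≤ m := fun y hy => A.le_max' y hy
        obtain ⟨N, hN⟩ : ∃ N, A.card = N + 1 := ⟨A.card - 1, by omega⟩
        have hcard : (A.erase m).card = N := by
          rw [Finset.card_erase_of_mem hmA, hN]; rfl
        have h1 := card_avl_succ_le d A m hmA hmax
        have h1' : ((avl (d + 1) A).card : ℝ) ≤
            ∑ T ∈ (A.erase m).powerset,
              ((avl (d + 1) (A.erase m \ T)).card : ℝ) * (avl d T).card := by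
          exact_mod_cast h1
        have h3 : ∀ T ∈ (A.erase m).powerset,
            ((avl (d + 1) (A.erase m \ T)).card : ℝ) * (avl d T).card ≤
            (M : ℝ) ^ B * K / (M : ℝ) ^ N *
              (((N - T.card).factorial : ℝ) * T.card.factorial / 2 ^ T.card) := by
          intro T hT
          rw [Finset.mem_powerset] at hT
          have hTN : T.card ≤ N := by
            rw [← hcard]; exact Finset.card_le_card hT
          have hc2 : (A.erase m \ T).card = N - T.card := by
            rw [Finset.card_sdiff_of_subset hT, hcard]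
          have ha := ihN (N - T.card) (by omega) (A.erase m \ T) hc2
          have hb := hK T
          calc ((avl (d + 1) (A.erase m \ T)).card : ℝ) * (avl d T).card
              ≤ ((M : ℝ) ^ B * (N - T.card).factorial / (M : ℝ) ^ (N - T.card)) *
                (K * T.card.factorial / ((2 * M : ℕ) : ℝ) ^ T.card) := by
                gcongr
            _ = (M : ℝ) ^ B * K / (M : ℝ) ^ N *
              (((N - T.card).factorial : ℝ) * T.card.factorial / 2 ^ T.card) := by
                have : (M : ℝ) ^ N = (M : ℝ) ^ (N - T.card) * (M : ℝ) ^ T.card := by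
                  rw [← pow_add]; congr 1; omega
                rw [this]
                push_cast
                rw [mul_pow]
                field_simp
        have h4 := h1'.trans (Finset.sum_le_sum h3)
        rw [← Finset.mul_sum] at h4
        have h5 : ∑ T ∈ (A.erase m).powerset,
            (((N - T.card).factorial : ℝ) * T.card.factorial / 2 ^ T.card) =
            ∑ j ∈ Finset.range (N + 1),
              (N.choose j : ℝ) * ((N - j).factorial * j.factorial / 2 ^ j) := by
          have := Finset.sum_powerset_apply_card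
            (fun j => ((N - j).factorial : ℝ) * j.factorial / 2 ^ j) (x := A.erase m)
          rw [this, hcard]
          refine Finset.sum_congr rfl fun j _ => ?_
          rw [nsmul_eq_mul]
        rw [h5] at h4
        have h6 : (M : ℝ) ^ B * K / (M : ℝ) ^ N *
            ∑ j ∈ Finset.range (N + 1),
              (N.choose j : ℝ) * ((N - j).factorial * j.factorial / 2 ^ j) ≤
            (M : ℝ) ^ B * K / (M : ℝ) ^ N * (2 * N.factorial) := by
          have := sum_bound N
          gcongr
        refine (h4.trans h6).trans ?_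
        rw [hN, Nat.factorial_succ, le_div_iff₀ (by positivity)]
        have h7 : 2 * K * M ≤ N + 1 := by
          have : (B : ℝ) ≤ N + 1 := by
            have : B ≤ N + 1 := by omega
            exact_mod_cast this
          linarith
        have e : (M : ℝ) ^ B * K / (M : ℝ) ^ N * (2 * N.factorial) * (M : ℝ) ^ (N + 1) =
            (M : ℝ) ^ B * N.factorial * (2 * K * M) := by
          rw [pow_succ]; field_simp
        rw [e]
        push_cast
        have hp : (0 : ℝ) ≤ (M : ℝ) ^ B * N.factorial := by positivity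
        calc (M : ℝ) ^ B * N.factorial * (2 * K * M) ≤ (M : ℝ) ^ B * N.factorial * (N + 1) := by
              gcongr
          _ = (M : ℝ) ^ B * ((N + 1) * N.factorial) := by ring

/-- Variant of the pattern with blocks of length at least three. -/
def Pat3 : ℕ → List α → Prop
  | 0, w => w = []
  | d + 1, w => ∃ (a x y : α) (A w' : List α), w = (a :: x :: y :: A) ++ w' ∧
      (∀ z ∈ (x :: y :: A) ++ w', z < a) ∧ Pat3 d w'

/-- Some factor of `w` satisfies `Pat3 d`. -/
def HasPat3 (d : ℕ) (w : List α) : Prop := ∃ u p v : List α, w = u ++ p ++ v ∧ Pat3 d p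

theorem pat3_of_pat (d : ℕ) : ∀ w : List α, Pat (3 * d) w → Pat3 d w := by
  induction d with
  | zero => intro w h; exact h
  | succ d ih =>
    intro w h
    have h' : Pat (3 * d + 2 + 1) w := h
    obtain ⟨a, A1, w1, rfl, ha, h1⟩ := h'
    have h1' : Pat (3 * d + 1 + 1) w1 := h1
    obtain ⟨b, A2, w2, rfl, hb, h2⟩ := h1'
    obtain ⟨c, A3, w3, rfl, hc, h3⟩ := h2
    have : ∃ x y A, A1 ++ b :: (A2 ++ c :: A3) = x :: y :: A := by
      rcases A1 with _ | ⟨x, _ | ⟨y, A⟩⟩
      · rcases A2 with _ | ⟨y, A⟩
        · exact ⟨b, c, A3, rfl⟩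
        · exact ⟨b, y, A ++ c :: A3, rfl⟩
      · exact ⟨x, b, A2 ++ c :: A3, rfl⟩
      · exact ⟨x, y, A ++ b :: (A2 ++ c :: A3), rfl⟩
    obtain ⟨x, y, A, hA⟩ := this
    refine ⟨a, x, y, A, w3, ?_, ?_, ih w3 h3⟩
    · rw [List.cons_append, List.cons_append, List.cons_append]
      congr 1
      have : (x :: y :: A) ++ w3 = (A1 ++ b :: (A2 ++ c :: A3)) ++ w3 := by rw [hA]
      simpa using this.symm
    · intro z hz
      apply ha
      rw [← hA] at hz
      simpa using hz

theorem hasPat3_of_hasPat {d : ℕ} {w : List α} (h : HasPat (3 * d) w) : HasPat3 d w := by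
  obtain ⟨u, p, v, rfl, hp⟩ := h
  exact ⟨u, p, v, rfl, pat3_of_pat d p hp⟩

end Pool.Agent.JordanPI
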