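import Mathlib
import Pool.Agent.JordanPI.Words

set_option autoImplicit false

open Finset

namespace Pool.Agent.JordanPI

variable {F : Type*} [Field F] {R : Type*} [Ring R] [Algebra F R]

/-- `J` behaves like an ideal of the unital Jordan algebra `J1`. -/
structure IsSys (J J1 : Submodule F R) : Prop where
  comm : ∀ a ∈ J1, ∀ b ∈ J1, ∀ c ∈ J1, (a * b - b * a) * c - c * (a * b - b * a) ∈ J
  triple : ∀ c ∈ J, ∀ x ∈ J1, ∀ y ∈ J1, c * x * y + y * x * c ∈ J
  anti : ∀ c ∈ J, ∀ x ∈ J1, c * x + x * c ∈ J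

/-- `J` satisfies a multilinear identity of degree `d` with leading coefficient one. -/
def HasIdent (J : Submodule F R) (d : ℕ) : Prop :=
  ∃ al : Equiv.Perm (Fin d) → F, al 1 = 1 ∧ ∀ y : Fin d → R, (∀ i, y i ∈ J) →
    ∑ σ, al σ • (List.ofFn fun i => y (σ i)).prod = 0

variable {α : Type*} [LinearOrder α]

/-- The product of the `z i` along a word. -/
def zp (z : α → R) (w : List α) : R := (w.map z).prod

omit [LinearOrder α] in
theorem zp_append (z : α → R) (u v : List α) : zp z (u ++ v) = zp z u * zp z v := by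
  simp [zp]

/-- Strict lexicographic comparison at a letter. -/
def LtW (v w : List α) : Prop :=
  ∃ (p : List α) (x y : α) (s t : List α), v = p ++ x :: s ∧ w = p ++ y :: t ∧ x < y

theorem LtW.append {v w : List α} (h : LtW v w) (s t : List α) : LtW (v ++ s) (w ++ t) := by
  obtain ⟨p, x, y, a, b, rfl, rfl, hxy⟩ := h
  exact ⟨p, x, y, a ++ s, b ++ t, by simp, by simp, hxy⟩

theorem LtW.append_left {v w : List α} (h : LtW v w) (s : List α) : LtW (s ++ v) (s ++ w) := by
  obtain ⟨p, x, y, a, b, rfl, rfl, hxy⟩ := h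
  exact ⟨s ++ p, x, y, a, b, by simp, by simp, hxy⟩

/-- Span of the arrangements of `w`. -/
def FS (F : Type*) [Field F] [Algebra F R] (z : α → R) (w : List α) : Submodule F R :=
  Submodule.span F {r | ∃ v : List α, v.Perm w ∧ r = zp z v}

/-- Span of the arrangements of `w` smaller than `w`. -/
def LS (F : Type*) [Field F] [Algebra F R] (z : α → R) (w : List α) : Submodule F R :=
  Submodule.span F {r | ∃ v : List α, v.Perm w ∧ LtW v w ∧ r = zp z v}

/-- Span of the arrangements of `w` whose first letter is smaller than `a`. -/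
def TS (F : Type*) [Field F] [Algebra F R] (z : α → R) (a : α) (w : List α) : Submodule F R :=
  Submodule.span F {r | ∃ v : List α, v.Perm w ∧ (∃ b s, v = b :: s ∧ b < a) ∧ r = zp z v}

variable {z : α → R}

theorem zp_mem_FS {v w : List α} (h : v.Perm w) : zp z v ∈ FS F z w :=
  Submodule.subset_span ⟨v, h, rfl⟩

theorem FS_perm {v w : List α} (h : v.Perm w) : FS F z v = FS F z w := by
  unfold FS
  congr 1
  ext r
  constructor
  · rintro ⟨u, hu, rfl⟩; exact ⟨u, hu.trans h, rfl⟩
  · rintro ⟨u, hu, rfl⟩; exact ⟨u, hu.trans h.symm, rfl⟩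

theorem TS_le_FS (a : α) (w : List α) : TS F z a w ≤ FS F z w := by
  refine Submodule.span_mono ?_
  rintro r ⟨v, hv, _, rfl⟩
  exact ⟨v, hv, rfl⟩

theorem LS_le_FS (w : List α) : LS F z w ≤ FS F z w := by
  refine Submodule.span_mono ?_
  rintro r ⟨v, hv, _, rfl⟩
  exact ⟨v, hv, rfl⟩

/-- Bilinear bookkeeping for spans. -/
theorem span_mul_mem {S T : Set R} {P : Submodule F R}
    (h : ∀ a ∈ S, ∀ b ∈ T, a * b ∈ P) {a b : R} (ha : a ∈ Submodule.span F S)
    (hb : b ∈ Submodule.span F T) : a * b ∈ P := by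
  have h1 : a * b ∈ Submodule.span F S * Submodule.span F T := Submodule.mul_mem_mul ha hb
  rw [Submodule.span_mul_span] at h1
  refine (Submodule.span_le.mpr ?_) h1
  rintro _ ⟨a, ha, b, hb, rfl⟩
  exact h a ha b hb

theorem FS_mul_FS {u v : List α} {a b : R} (ha : a ∈ FS F z u) (hb : b ∈ FS F z v) :
    a * b ∈ FS F z (u ++ v) := by
  refine span_mul_mem ?_ ha hb
  rintro _ ⟨u', hu, rfl⟩ _ ⟨v', hv, rfl⟩
  rw [← zp_append]
  exact zp_mem_FS (hu.append hv)

theorem TS_mul_FS {c : α} {u v : List α} {a b : R} (ha : a ∈ TS F z c u) (hb : b ∈ FS F z v) :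
    a * b ∈ TS F z c (u ++ v) := by
  refine span_mul_mem ?_ ha hb
  rintro _ ⟨u', hu, ⟨x, s, rfl, hx⟩, rfl⟩ _ ⟨v', hv, rfl⟩
  rw [← zp_append]
  exact Submodule.subset_span ⟨_, hu.append hv, ⟨x, s ++ v', by simp, hx⟩, rfl⟩

theorem zp_mul_LS {u v : List α} {b : R} (hb : b ∈ LS F z v) : zp z u * b ∈ LS F z (u ++ v) := by
  have ha : zp z u ∈ Submodule.span F {zp z u} := Submodule.mem_span_singleton_self _
  refine span_mul_mem ?_ ha hb
  rintro _ rfl _ ⟨v', hv, hlt, rfl⟩
  rw [← zp_append]
  exact Submodule.subset_span ⟨_, hv.append_left u, hlt.append_left u, rfl⟩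

theorem LS_mul_zp {u v : List α} {a : R} (ha : a ∈ LS F z u) : a * zp z v ∈ LS F z (u ++ v) := by
  have hb : zp z v ∈ Submodule.span F {zp z v} := Submodule.mem_span_singleton_self _
  refine span_mul_mem ?_ ha hb
  rintro _ ⟨u', hu, hlt, rfl⟩ _ rfl
  rw [← zp_append]
  exact Submodule.subset_span ⟨_, hu.append_right v, hlt.append v v, rfl⟩

theorem TS_le_LS (a : α) (w : List α) : TS F z a (a :: w) ≤ LS F z (a :: w) := by
  refine Submodule.span_mono ?_
  rintro r ⟨v, hv, ⟨b, s, rfl, hb⟩, rfl⟩
  exact ⟨b :: s, hv, ⟨[], b, a, s, w, rfl, rfl, hb⟩, rfl⟩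

/-- Accumulated Jordan products. -/
def gacc (z : α → R) : R → List α → R
  | c, [] => c
  | c, [x] => c * z x + z x * c
  | c, x :: y :: A => gacc z (c * z x * z y + z y * z x * c) A

/-- The Jordan element attached to a block. -/
def gblk (z : α → R) : List α → R
  | a :: x :: y :: A => gacc z ((z a * z x - z x * z a) * z y - z y * (z a * z x - z x * z a)) A
  | _ => 0

theorem gacc_mem {J J1 : Submodule F R} (hs : IsSys J J1) (hz : ∀ a, z a ∈ J1) :
    ∀ (A : List α) (c : R), c ∈ J → gacc z c A ∈ J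
  | [], c, hc => hc
  | [x], c, hc => hs.anti c hc _ (hz x)
  | x :: y :: A, c, hc => gacc_mem hs hz A _ (hs.triple c hc _ (hz x) _ (hz y))

theorem gblk_mem {J J1 : Submodule F R} (hs : IsSys J J1) (hz : ∀ a, z a ∈ J1) (w : List α) :
    gblk z w ∈ J := by
  match w with
  | [] => exact Submodule.zero_mem _
  | [_] => exact Submodule.zero_mem _
  | [_, _] => exact Submodule.zero_mem _
  | a :: x :: y :: A => exact gacc_mem hs hz A _ (hs.comm _ (hz a) _ (hz x) _ (hz y))

theorem gacc_sub_mem : ∀ (A C : List α) (a : α) (c : R), c - zp z C ∈ TS F z a C →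
    (∀ x ∈ A, x < a) → gacc z c A - zp z (C ++ A) ∈ TS F z a (C ++ A)
  | [], C, a, c, hc, _ => by simpa [gacc] using hc
  | [x], C, a, c, hc, hA => by
    have hcF : c ∈ FS F z C := by
      have : c = (c - zp z C) + zp z C := by abel
      rw [this]
      exact Submodule.add_mem _ (TS_le_FS a C hc) (zp_mem_FS (List.Perm.refl _))
    have e : gacc z c [x] - zp z (C ++ [x]) = (c - zp z C) * zp z [x] + zp z [x] * c := by
      rw [gacc, zp_append]
      simp only [zp, List.map_cons, List.map_nil, List.prod_cons, List.prod_nil, mul_one]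
      noncomm_ring
    rw [e]
    refine Submodule.add_mem _ (TS_mul_FS hc (zp_mem_FS (List.Perm.refl _))) ?_
    have ha : zp z [x] ∈ TS F z a [x] :=
      Submodule.subset_span ⟨[x], List.Perm.refl _, ⟨x, [], rfl, hA x (by simp)⟩, rfl⟩
    have h := TS_mul_FS ha hcF
    have hperm : ([x] ++ C).Perm (C ++ [x]) := List.perm_append_comm
    have hTS : TS F z a ([x] ++ C) = TS F z a (C ++ [x]) := by
      unfold TS
      congr 1
      ext r
      constructor
      · rintro ⟨u, hu, h1, rfl⟩; exact ⟨u, hu.trans hperm, h1, rfl⟩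
      · rintro ⟨u, hu, h1, rfl⟩; exact ⟨u, hu.trans hperm.symm, h1, rfl⟩
    rwa [hTS] at h
  | x :: y :: A, C, a, c, hc, hA => by
    have hcF : c ∈ FS F z C := by
      have : c = (c - zp z C) + zp z C := by abel
      rw [this]
      exact Submodule.add_mem _ (TS_le_FS a C hc) (zp_mem_FS (List.Perm.refl _))
    have e : (c * z x * z y + z y * z x * c) - zp z (C ++ [x, y]) =
        (c - zp z C) * zp z [x, y] + zp z [y, x] * c := by
      rw [zp_append]
      simp only [zp, List.map_cons, List.map_nil, List.prod_cons, List.prod_nil, mul_one]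
      noncomm_ring
    have h1 : (c * z x * z y + z y * z x * c) - zp z (C ++ [x, y]) ∈ TS F z a (C ++ [x, y]) := by
      rw [e]
      refine Submodule.add_mem _ (TS_mul_FS hc (zp_mem_FS (List.Perm.refl _))) ?_
      have ha : zp z [y, x] ∈ TS F z a [y, x] :=
        Submodule.subset_span ⟨[y, x], List.Perm.refl _, ⟨y, [x], rfl, hA y (by simp)⟩, rfl⟩
      have h := TS_mul_FS ha hcF
      have hperm : ([y, x] ++ C).Perm (C ++ [x, y]) :=
        List.perm_append_comm.trans (List.Perm.append_left C (List.Perm.swap _ _ _))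
      have hTS : TS F z a ([y, x] ++ C) = TS F z a (C ++ [x, y]) := by
        unfold TS
        congr 1
        ext r
        constructor
        · rintro ⟨u, hu, h1, rfl⟩; exact ⟨u, hu.trans hperm, h1, rfl⟩
        · rintro ⟨u, hu, h1, rfl⟩; exact ⟨u, hu.trans hperm.symm, h1, rfl⟩
      rwa [hTS] at h
    have h2 := gacc_sub_mem A (C ++ [x, y]) a _ h1 (fun t ht => hA t (by simp [ht]))
    have e2 : C ++ [x, y] ++ A = C ++ x :: y :: A := by simp
    rw [e2] at h2
    exact h2

theorem gblk_sub_mem (a x y : α) (A : List α) (h : ∀ t ∈ x :: y :: A, t < a) :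
    gblk z (a :: x :: y :: A) - zp z (a :: x :: y :: A) ∈ TS F z a (a :: x :: y :: A) := by
  have h1 : ((z a * z x - z x * z a) * z y - z y * (z a * z x - z x * z a)) - zp z [a, x, y] ∈
      TS F z a [a, x, y] := by
    have e : ((z a * z x - z x * z a) * z y - z y * (z a * z x - z x * z a)) - zp z [a, x, y] =
        - zp z [x, a, y] - zp z [y, a, x] + zp z [y, x, a] := by
      simp only [zp, List.map_cons, List.map_nil, List.prod_cons, List.prod_nil, mul_one]
      noncomm_ring
    rw [e]
    have hx : x < a := h x (by simp)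
    have hy : y < a := h y (by simp)
    have p1 : [x, a, y].Perm [a, x, y] := List.Perm.swap _ _ _
    have p2 : [y, a, x].Perm [a, x, y] :=
      (List.Perm.swap _ _ _).trans (List.Perm.cons a (List.Perm.swap _ _ _))
    have p3 : [y, x, a].Perm [a, x, y] :=
      (List.Perm.cons y (List.Perm.swap _ _ _)).trans p2
    refine Submodule.add_mem _ (Submodule.sub_mem _ (Submodule.neg_mem _ ?_) ?_) ?_
    · exact Submodule.subset_span ⟨_, p1, ⟨x, _, rfl, hx⟩, rfl⟩
    · exact Submodule.subset_span ⟨_, p2, ⟨y, _, rfl, hy⟩, rfl⟩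
    · exact Submodule.subset_span ⟨_, p3, ⟨y, _, rfl, hy⟩, rfl⟩
  have h2 := gacc_sub_mem A [a, x, y] a _ h1 (fun t ht => h t (by simp [ht]))
  exact h2

/-- Lists of blocks satisfying the pattern condition. -/
def Blk : List (List α) → Prop
  | [] => True
  | w :: ws => (∃ (a x y : α) (A : List α), w = a :: x :: y :: A ∧
      ∀ t ∈ (x :: y :: A) ++ ws.flatten, t < a) ∧ Blk ws

theorem exists_blk {d : ℕ} : ∀ {p : List α}, Pat3 d p →
    ∃ ws : List (List α), ws.length = d ∧ ws.flatten = p ∧ Blk ws := by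
  induction d with
  | zero => intro p hp; exact ⟨[], rfl, hp.symm, trivial⟩
  | succ d ih =>
    rintro p ⟨a, x, y, A, w', rfl, h, hw'⟩
    obtain ⟨ws, hlen, rfl, hb⟩ := ih hw'
    exact ⟨(a :: x :: y :: A) :: ws, by simp [hlen], by simp, ⟨a, x, y, A, rfl, h⟩, hb⟩

theorem Blk.nodup : ∀ {ws : List (List α)}, Blk ws → ws.Nodup
  | [], _ => List.nodup_nil
  | w :: ws, ⟨⟨a, x, y, A, hw, h⟩, hb⟩ => by
    rw [List.nodup_cons]
    refine ⟨?_, Blk.nodup hb⟩
    intro hmem
    have : a ∈ ws.flatten := List.mem_flatten.mpr ⟨w, hmem, by simp [hw]⟩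
    exact lt_irrefl a (h a (by simp [this]))

theorem Blk.ne_nil_of_mem : ∀ {ws : List (List α)}, Blk ws → ∀ w ∈ ws, w ≠ []
  | [], _, w, hw => by simp at hw
  | w :: ws, ⟨⟨a, x, y, A, hw, _⟩, hb⟩, u, hu => by
    rcases List.mem_cons.mp hu with rfl | hu
    · rw [hw]; simp
    · exact Blk.ne_nil_of_mem hb u hu

theorem gblk_mem_FS : ∀ {ws : List (List α)}, Blk ws → ∀ w ∈ ws, gblk z w ∈ FS F z w
  | [], _, w, hw => by simp at hw
  | w :: ws, ⟨⟨a, x, y, A, hw, h⟩, hb⟩, u, hu => by
    rcases List.mem_cons.mp hu with rfl | hu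
    · subst hw
      have h1 := gblk_sub_mem (F := F) (z := z) a x y A (fun t ht => h t (by
        rw [List.mem_append]; exact Or.inl ht))
      have : gblk z (a :: x :: y :: A) =
          (gblk z (a :: x :: y :: A) - zp z (a :: x :: y :: A)) + zp z (a :: x :: y :: A) := by
        abel
      rw [this]
      exact Submodule.add_mem _ (TS_le_FS a _ h1) (zp_mem_FS (List.Perm.refl _))
    · exact gblk_mem_FS hb u hu

theorem prod_mem_FS (ws : List (List α)) (h : ∀ w ∈ ws, gblk z w ∈ FS F z w) :
    (ws.map (gblk z)).prod ∈ FS F z ws.flatten := by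
  induction ws with
  | nil =>
    have : ((([] : List (List α)).map (gblk z)).prod : R) = zp z [] := by simp [zp]
    rw [this]
    exact zp_mem_FS (List.Perm.refl _)
  | cons w ws ih =>
    rw [List.map_cons, List.prod_cons, List.flatten_cons]
    exact FS_mul_FS (h w (by simp)) (ih fun u hu => h u (by simp [hu]))

theorem split_mul (g w p q : R) : g * p - w * q = (g - w) * p + w * (p - q) := by
  noncomm_ring

theorem split_mul' (g w p : R) : g * p = (g - w) * p + w * p := by
  noncomm_ring

theorem TS_perm {a : α} {v w : List α} (h : v.Perm w) : TS F z a v = TS F z a w := by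
  unfold TS
  congr 1
  ext r
  constructor
  · rintro ⟨u, hu, h1, rfl⟩; exact ⟨u, hu.trans h, h1, rfl⟩
  · rintro ⟨u, hu, h1, rfl⟩; exact ⟨u, hu.trans h.symm, h1, rfl⟩

theorem blk_head {w : List α} {ws : List (List α)} (hB : Blk (w :: ws)) :
    ∃ (a : α) (A : List α), w = a :: A ∧ (gblk z w - zp z w ∈ TS F z a w) ∧
      ∀ t ∈ ws.flatten, t < a := by
  obtain ⟨⟨a, x, y, A, rfl, h⟩, hb⟩ := hB
  refine ⟨a, x :: y :: A, rfl, ?_, ?_⟩
  · exact gblk_sub_mem a x y A (fun t ht => h t (by rw [List.mem_append]; exact Or.inl ht))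
  · intro t ht
    exact h t (by rw [List.mem_append]; exact Or.inr ht)

theorem prod_sub_mem (ws : List (List α)) (hB : Blk ws) :
    (ws.map (gblk z)).prod - zp z ws.flatten ∈ LS F z ws.flatten := by
  induction ws with
  | nil => simp [zp]
  | cons w ws ih =>
    obtain ⟨a, A, hw, h1, _⟩ := blk_head (F := F) (z := z) hB
    have hb : Blk ws := hB.2
    have ih := ih hb
    rw [List.map_cons, List.prod_cons, List.flatten_cons, zp_append, split_mul]
    refine Submodule.add_mem _ ?_ (zp_mul_LS ih)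
    have h2 := TS_mul_FS h1 (prod_mem_FS ws (gblk_mem_FS hb))
    subst hw
    exact TS_le_LS a _ h2

theorem prod_perm_mem (ws : List (List α)) (hB : Blk ws) (ws' : List (List α)) (hp : ws'.Perm ws)
    (hne : ws' ≠ ws) : (ws'.map (gblk z)).prod ∈ LS F z ws.flatten := by
  induction ws generalizing ws' with
  | nil => exact absurd (List.perm_nil.mp hp) hne
  | cons w ws ih =>
    rcases ws' with _ | ⟨w', ws'⟩
    · exact absurd (List.nil_perm.mp hp) (by simp)
    obtain ⟨a, A, hwa, h1, hlt⟩ := blk_head (F := F) (z := z) hB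
    have hb : Blk ws := hB.2
    rw [List.map_cons, List.prod_cons]
    have hfs : ∀ u ∈ w' :: ws', gblk z u ∈ FS F z u := fun u hu =>
      gblk_mem_FS hB u (hp.subset hu)
    by_cases hw : w' = w
    · subst hw
      have hp' : ws'.Perm ws := (List.perm_cons _).mp hp
      have hne' : ws' ≠ ws := fun e => hne (by rw [e])
      have ih := ih hb ws' hp' hne'
      rw [List.flatten_cons, split_mul' _ (zp z w')]
      refine Submodule.add_mem _ ?_ (zp_mul_LS ih)
      have h2 := prod_mem_FS (F := F) (z := z) ws' (fun u hu => hfs u (by simp [hu]))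
      rw [FS_perm hp'.flatten] at h2
      have h3 := TS_mul_FS h1 h2
      subst hwa
      exact TS_le_LS a _ h3
    · have hmem : w' ∈ ws := by
        have := hp.subset (List.mem_cons_self (a := w') (l := ws'))
        rcases List.mem_cons.mp this with h' | h'
        · exact absurd h' hw
        · exact h'
      have h1 : gblk z w' ∈ TS F z a w' := by
        have h2 := gblk_mem_FS (F := F) (z := z) hb w' hmem
        refine Submodule.span_mono ?_ h2
        rintro r ⟨v, hv, rfl⟩
        refine ⟨v, hv, ?_, rfl⟩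
        have hvne : v ≠ [] := by
          rintro rfl
          exact Blk.ne_nil_of_mem hb w' hmem (List.nil_perm.mp hv)
        obtain ⟨b, s, rfl⟩ := List.exists_cons_of_ne_nil hvne
        refine ⟨b, s, rfl, ?_⟩
        apply hlt
        rw [List.mem_flatten]
        exact ⟨w', hmem, hv.subset (by simp)⟩
      have h2 := prod_mem_FS (F := F) (z := z) ws' (fun u hu => hfs u (by simp [hu]))
      have h3 := TS_mul_FS h1 h2
      have hperm : (w' ++ ws'.flatten).Perm ((w :: ws).flatten) := by
        have := hp.flatten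
        rwa [List.flatten_cons] at this
      rw [TS_perm hperm] at h3
      subst hwa
      rw [List.flatten_cons, List.cons_append] at h3 ⊢
      exact TS_le_LS a _ h3

/-- The key rewriting step. -/
theorem zp_pat_mem {J J1 : Submodule F R} (hs : IsSys J J1) {d : ℕ} (hid : HasIdent J d)
    (hz : ∀ a, z a ∈ J1) {p : List α} (hp : Pat3 d p) : zp z p ∈ LS F z p := by
  obtain ⟨ws, hlen, rfl, hb⟩ := exists_blk hp
  subst hlen
  obtain ⟨al, h1, hal⟩ := hid
  have hnd := hb.nodup
  set W : Fin ws.length → List α := fun i => ws.get i with hW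
  have hofn : List.ofFn W = ws := List.ofFn_get ws
  have hinj : Function.Injective W := by
    rw [← List.nodup_ofFn, hofn]; exact hnd
  have hsum := hal (fun i => gblk z (W i)) (fun i => gblk_mem hs hz _)
  rw [← Finset.add_sum_erase _ _ (Finset.mem_univ (1 : Equiv.Perm (Fin ws.length)))] at hsum
  have hterm : ∀ σ : Equiv.Perm (Fin ws.length),
      (List.ofFn fun i => gblk z (W (σ i))).prod =
      ((List.ofFn (W ∘ σ)).map (gblk z)).prod := by
    intro σ
    rw [List.map_ofFn]
    rfl
  have hone : (List.ofFn fun i => gblk z (W ((1 : Equiv.Perm (Fin ws.length)) i))).prod =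
      (ws.map (gblk z)).prod := by
    rw [hterm]
    have : W ∘ (1 : Equiv.Perm (Fin ws.length)) = W := rfl
    rw [this, hofn]
  rw [h1, one_smul, hone] at hsum
  have hrest : ∑ σ ∈ (Finset.univ : Finset (Equiv.Perm (Fin ws.length))).erase 1,
      al σ • (List.ofFn fun i => gblk z (W (σ i))).prod ∈ LS F z ws.flatten := by
    refine Submodule.sum_mem _ fun σ hσ => Submodule.smul_mem _ _ ?_
    rw [hterm]
    refine prod_perm_mem ws hb _ ?_ ?_
    · have := Equiv.Perm.ofFn_comp_perm σ W
      rwa [hofn] at this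
    · intro e
      have h2 := List.ofFn_injective (e.trans hofn.symm)
      have h3 : σ = 1 := by
        ext i
        have := congrFun h2 i
        have h4 : W (σ i) = W i := this
        exact congrArg Fin.val (hinj h4)
      exact (Finset.mem_erase.mp hσ).1 h3
  have e : zp z ws.flatten = -((ws.map (gblk z)).prod - zp z ws.flatten) -
      ∑ σ ∈ (Finset.univ : Finset (Equiv.Perm (Fin ws.length))).erase 1,
      al σ • (List.ofFn fun i => gblk z (W (σ i))).prod := by
    have : (ws.map (gblk z)).prod = -∑ σ ∈ (Finset.univ : Finset (Equiv.Perm (Fin ws.length))).erase 1,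
      al σ • (List.ofFn fun i => gblk z (W (σ i))).prod := eq_neg_of_add_eq_zero_left hsum
    rw [this]
    abel
  rw [e]
  exact Submodule.sub_mem _ (Submodule.neg_mem _ (prod_sub_mem ws hb)) hrest

theorem zp_hasPat_mem {J J1 : Submodule F R} (hs : IsSys J J1) {d : ℕ} (hid : HasIdent J d)
    (hz : ∀ a, z a ∈ J1) {w : List α} (hw : HasPat3 d w) : zp z w ∈ LS F z w := by
  obtain ⟨u, p, v, rfl, hp⟩ := hw
  have h := zp_pat_mem hs hid hz hp
  rw [zp_append, zp_append]
  exact LS_mul_zp (zp_mul_LS h)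

theorem LtW.lt {v w : List α} (h : LtW v w) : v < w := by
  obtain ⟨p, x, y, s, t, rfl, rfl, hxy⟩ := h
  induction p with
  | nil => exact List.Lex.rel hxy
  | cons a p ih => exact List.Lex.cons ih

/-- Every word reduces to arrangements of the same letters avoiding the pattern. -/
theorem zp_mem_span_avoid {J J1 : Submodule F R} (hs : IsSys J J1) {d : ℕ} (hid : HasIdent J d)
    (hz : ∀ a, z a ∈ J1) (w : List α) :
    zp z w ∈ Submodule.span F {r | ∃ v : List α, v.Perm w ∧ ¬ HasPat3 d v ∧ r = zp z v} := by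
  classical
  have hfin : {v : List α | v.Perm w}.Finite := by
    refine (w.permutations.toFinset.finite_toSet).subset ?_
    intro v hv
    simpa using hv
  have hwf : {v : List α | v.Perm w}.WellFoundedOn (· < ·) := hfin.wellFoundedOn
  have key : ∀ v ∈ {v : List α | v.Perm w},
      zp z v ∈ Submodule.span F {r | ∃ v : List α, v.Perm w ∧ ¬ HasPat3 d v ∧ r = zp z v} := by
    intro v hv
    refine hwf.induction (P := fun v => zp z v ∈ Submodule.span F
      {r | ∃ v : List α, v.Perm w ∧ ¬ HasPat3 d v ∧ r = zp z v}) hv ?_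
    intro v hv ih
    by_cases hp : HasPat3 d v
    · have h1 := zp_hasPat_mem hs hid hz hp
      refine (Submodule.span_le.mpr ?_) h1
      rintro r ⟨u, hu, hlt, rfl⟩
      exact ih u (hu.trans hv) hlt.lt
    · exact Submodule.subset_span ⟨v, hv, hp, rfl⟩
  exact key w (List.Perm.refl w)

/-- Version for arrangements of a finite set. -/
theorem zp_mem_span_avl {J J1 : Submodule F R} (hs : IsSys J J1) {d : ℕ} (hid : HasIdent J d)
    (hz : ∀ a, z a ∈ J1) (A : Finset α) (w : List α) (hw : w ∈ arr A) :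
    zp z w ∈ Submodule.span F ((zp z) '' (avl (3 * d) A : Set (List α))) := by
  refine Submodule.span_mono ?_ (zp_mem_span_avoid hs hid hz w)
  rintro r ⟨v, hv, hnp, rfl⟩
  refine ⟨v, ?_, rfl⟩
  rw [Finset.mem_coe, mem_avl]
  rw [mem_arr] at hw
  refine ⟨⟨hv.nodup_iff.mpr hw.1, ?_⟩, fun h => hnp (hasPat3_of_hasPat h)⟩
  rw [List.toFinset_eq_of_perm _ _ hv, hw.2]

end Pool.Agent.JordanPI
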