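import Mathlib
import Pool.Agent.JordanPI.Closure
import Pool.Agent.JordanPI.Rewrite

set_option autoImplicit false

namespace Pool.Agent.JordanPI

variable {F : Type*} [Field F] {R : Type*} [Ring R] [Algebra F R]

section Closed

variable {J : Submodule F R} (h2 : (2 : F) ≠ 0) (hJ : ∀ a ∈ J, ∀ b ∈ J, a * b + b * a ∈ J)
include h2 hJ

theorem triple_mem {a b c : R} (ha : a ∈ J) (hb : b ∈ J) (hc : c ∈ J) :
    a * b * c + c * b * a ∈ J := by
  have e : a * b * c + c * b * a = (2⁻¹ : F) • (((a * b + b * a) * c + c * (a * b + b * a)) -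
      ((a * c + c * a) * b + b * (a * c + c * a)) + (a * (b * c + c * b) + (b * c + c * b) * a)) := by
    have e1 : (((a * b + b * a) * c + c * (a * b + b * a)) -
      ((a * c + c * a) * b + b * (a * c + c * a)) + (a * (b * c + c * b) + (b * c + c * b) * a)) =
      (a * b * c + c * b * a) + (a * b * c + c * b * a) := by noncomm_ring
    rw [e1, smul_add, half_add_half h2]
  rw [e]
  refine Submodule.smul_mem _ _ (Submodule.add_mem _ (Submodule.sub_mem _ ?_ ?_) ?_)
  · exact hJ _ (hJ _ ha _ hb) _ hc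
  · exact hJ _ (hJ _ ha _ hc) _ hb
  · exact hJ _ ha _ (hJ _ hb _ hc)

theorem uop_mem {a b : R} (ha : a ∈ J) (hb : b ∈ J) : a * b * a ∈ J := by
  have h := triple_mem h2 hJ ha hb ha
  have e : a * b * a = (2⁻¹ : F) • (a * b * a + a * b * a) := by
    rw [smul_add, half_add_half h2]
  rw [e]
  exact Submodule.smul_mem _ _ h

theorem sq_mem {a : R} (ha : a ∈ J) : a * a ∈ J := by
  have h := hJ a ha a ha
  have e : a * a = (2⁻¹ : F) • (a * a + a * a) := by
    rw [smul_add, half_add_half h2]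
  rw [e]
  exact Submodule.smul_mem _ _ h

theorem pow_succ_mem {a : R} (ha : a ∈ J) (k : ℕ) : a ^ (k + 1) ∈ J := by
  induction k with
  | zero => simpa using ha
  | succ k ih =>
    have h := hJ _ ha _ ih
    have e : a ^ (k + 1 + 1) = (2⁻¹ : F) • (a * a ^ (k + 1) + a ^ (k + 1) * a) := by
      rw [← pow_succ', ← pow_succ, smul_add, half_add_half h2]
    rw [e]
    exact Submodule.smul_mem _ _ h

omit h2 in
theorem dcomm_mem {a b c : R} (ha : a ∈ J) (hb : b ∈ J) (hc : c ∈ J) :
    (a * b - b * a) * c - c * (a * b - b * a) ∈ J := by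
  have e : (a * b - b * a) * c - c * (a * b - b * a) =
      (a * (b * c + c * b) + (b * c + c * b) * a) -
      ((a * c + c * a) * b + b * (a * c + c * a)) := by noncomm_ring
  rw [e]
  exact Submodule.sub_mem _ (hJ _ ha _ (hJ _ hb _ hc)) (hJ _ (hJ _ ha _ hc) _ hb)

end Closed

/-- Adjoining the unit. -/
theorem mem_jclosure_insert_one {s : Set R} {r : R} (hr : r ∈ jclosure F (insert 1 s)) :
    ∃ c : F, ∃ j ∈ jclosure F s, r = c • (1 : R) + j := by
  refine jclosure_induction (F := F) (p := fun r => ∃ c : F, ∃ j ∈ jclosure F s,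
    r = c • (1 : R) + j) ?_ ?_ ?_ ?_ ?_ hr
  · intro a ha
    rcases Set.mem_insert_iff.mp ha with rfl | ha
    · exact ⟨1, 0, Submodule.zero_mem _, by simp⟩
    · exact ⟨0, a, subset_jclosure _ ha, by simp⟩
  · exact ⟨0, 0, Submodule.zero_mem _, by simp⟩
  · rintro a b ⟨c, j, hj, rfl⟩ ⟨e, k, hk, rfl⟩
    refine ⟨c + e, j + k, Submodule.add_mem _ hj hk, ?_⟩
    rw [add_smul]; abel
  · rintro t a ⟨c, j, hj, rfl⟩
    refine ⟨t * c, t • j, Submodule.smul_mem _ _ hj, ?_⟩
    rw [smul_add, smul_smul]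
  · rintro a b - - ⟨c, j, hj, rfl⟩ ⟨e, k, hk, rfl⟩
    refine ⟨2 * (c * e), (2 * c) • k + (2 * e) • j + (j * k + k * j), ?_, ?_⟩
    · exact Submodule.add_mem _ (Submodule.add_mem _ (Submodule.smul_mem _ _ hk)
        (Submodule.smul_mem _ _ hj)) (jclosure_mul hj hk)
    · simp only [mul_add, add_mul, smul_mul_assoc, mul_smul_comm, one_mul, mul_one, smul_add,
        smul_smul]
      have t1 : (2 * (c * e)) • (1 : R) = (c * e) • (1 : R) + (e * c) • (1 : R) := by
        rw [← add_smul]; congr 1; ring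
      have t2 : (2 * c) • k = c • k + c • k := by rw [← add_smul]; congr 1; ring
      have t3 : (2 * e) • j = e • j + e • j := by rw [← add_smul]; congr 1; ring
      rw [t1, t2, t3]
      abel

theorem isSys_jclosure (h2 : (2 : F) ≠ 0) (s : Set R) :
    IsSys (jclosure F s) (jclosure F (insert 1 s)) where
  comm := by
    intro a ha b hb c hc
    obtain ⟨a0, a1, ha1, rfl⟩ := mem_jclosure_insert_one ha
    obtain ⟨b0, b1, hb1, rfl⟩ := mem_jclosure_insert_one hb
    obtain ⟨c0, c1, hc1, rfl⟩ := mem_jclosure_insert_one hc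
    have e : ((a0 • (1 : R) + a1) * (b0 • (1 : R) + b1) -
        (b0 • (1 : R) + b1) * (a0 • (1 : R) + a1)) * (c0 • (1 : R) + c1) -
        (c0 • (1 : R) + c1) * ((a0 • (1 : R) + a1) * (b0 • (1 : R) + b1) -
        (b0 • (1 : R) + b1) * (a0 • (1 : R) + a1)) =
        (a1 * b1 - b1 * a1) * c1 - c1 * (a1 * b1 - b1 * a1) := by
      have e1 : (a0 • (1 : R) + a1) * (b0 • (1 : R) + b1) -
        (b0 • (1 : R) + b1) * (a0 • (1 : R) + a1) = a1 * b1 - b1 * a1 := by
        simp only [mul_add, add_mul, smul_mul_assoc, mul_smul_comm, one_mul, mul_one, smul_add,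
          smul_smul, mul_comm b0 a0]
        abel
      rw [e1]
      simp only [mul_add, add_mul, smul_mul_assoc, mul_smul_comm, one_mul, mul_one, smul_add]
      abel
    rw [e]
    exact dcomm_mem (fun _ h _ h' => jclosure_mul h h') ha1 hb1 hc1
  triple := by
    intro c hc x hx y hy
    obtain ⟨x0, x1, hx1, rfl⟩ := mem_jclosure_insert_one hx
    obtain ⟨y0, y1, hy1, rfl⟩ := mem_jclosure_insert_one hy
    have e : c * (x0 • (1 : R) + x1) * (y0 • (1 : R) + y1) +
        (y0 • (1 : R) + y1) * (x0 • (1 : R) + x1) * c =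
        (x0 * y0) • (c + c) + x0 • (c * y1 + y1 * c) + y0 • (c * x1 + x1 * c) +
        (c * x1 * y1 + y1 * x1 * c) := by
      simp only [mul_add, add_mul, smul_mul_assoc, mul_smul_comm, one_mul, mul_one, smul_add,
        smul_smul, mul_comm y0 x0]
      abel
    rw [e]
    refine Submodule.add_mem _ (Submodule.add_mem _ (Submodule.add_mem _ ?_ ?_) ?_) ?_
    · exact Submodule.smul_mem _ _ (Submodule.add_mem _ hc hc)
    · exact Submodule.smul_mem _ _ (jclosure_mul hc hy1)
    · exact Submodule.smul_mem _ _ (jclosure_mul hc hx1)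
    · exact triple_mem h2 (fun _ h _ h' => jclosure_mul h h') hc hx1 hy1
  anti := by
    intro c hc x hx
    obtain ⟨x0, x1, hx1, rfl⟩ := mem_jclosure_insert_one hx
    have e : c * (x0 • (1 : R) + x1) + (x0 • (1 : R) + x1) * c =
        x0 • (c + c) + (c * x1 + x1 * c) := by
      simp only [mul_add, add_mul, smul_mul_assoc, mul_smul_comm, one_mul, mul_one, smul_add]
      abel
    rw [e]
    exact Submodule.add_mem _ (Submodule.smul_mem _ _ (Submodule.add_mem _ hc hc))
      (jclosure_mul hc hx1)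

end Pool.Agent.JordanPI
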