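import Mathlib
import Pool.Agent.JordanPI.Jordan

set_option autoImplicit false

open Finset

namespace Pool.Agent.JordanPI

variable {F : Type*} [Field F]

/-- The free associative algebra on two letters. -/
abbrev FA (F : Type*) [Field F] : Type _ := FreeAlgebra F (Fin 2)

/-- The monomial attached to a word in two letters. -/
noncomputable def mono (F : Type*) [Field F] (w : List (Fin 2)) : FA F :=
  (w.map (FreeAlgebra.ι F)).prod

theorem mono_append (u v : List (Fin 2)) : mono F (u ++ v) = mono F u * mono F v := by
  simp [mono]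

theorem mono_flatten (ws : List (List (Fin 2))) : mono F ws.flatten = (ws.map (mono F)).prod := by
  induction ws with
  | nil => simp [mono]
  | cons w ws ih => rw [List.flatten_cons, mono_append, ih, List.map_cons, List.prod_cons]

theorem basis_eq_mono (w : FreeMonoid (Fin 2)) :
    FreeAlgebra.basisFreeMonoid F (Fin 2) w = mono F w.toList := by
  have h : FreeAlgebra.equivMonoidAlgebraFreeMonoid (mono F w.toList) =
      (MonoidAlgebra.single w (1 : F)) := by
    induction w using FreeMonoid.recOn with
    | one =>
      simp only [mono, FreeMonoid.toList_one, List.map_nil, List.prod_nil, map_one]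
      rfl
    | of_mul x xs ih =>
      have e : mono F (FreeMonoid.toList (FreeMonoid.of x * xs)) =
          FreeAlgebra.ι F x * mono F xs.toList := by
        simp [mono]
      rw [e, map_mul, ih]
      have e2 : FreeAlgebra.equivMonoidAlgebraFreeMonoid (FreeAlgebra.ι F x) =
          (MonoidAlgebra.single (FreeMonoid.of x) (1 : F)) := by
        simp [FreeAlgebra.equivMonoidAlgebraFreeMonoid]
      rw [e2, MonoidAlgebra.single_mul_single, one_mul]
  have h2 : mono F w.toList =
      FreeAlgebra.equivMonoidAlgebraFreeMonoid.symm (MonoidAlgebra.single w (1 : F)) := by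
    rw [← h, AlgEquiv.symm_apply_apply]
  rw [h2]
  simp [FreeAlgebra.basisFreeMonoid]

theorem rep_inj : ∀ (m m' : ℕ) (r r' : List (Fin 2)),
    List.replicate m (0 : Fin 2) ++ 1 :: r = List.replicate m' (0 : Fin 2) ++ 1 :: r' →
      m = m' ∧ r = r'
  | 0, 0, r, r', h => by simpa using h
  | 0, m' + 1, r, r', h => by
    simp [List.replicate_succ] at h
  | m + 1, 0, r, r', h => by
    simp [List.replicate_succ] at h
  | m + 1, m' + 1, r, r', h => by
    rw [List.replicate_succ, List.replicate_succ, List.cons_append, List.cons_append,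
      List.cons.injEq] at h
    have := rep_inj m m' r r' h.2
    exact ⟨by rw [this.1], this.2⟩

/-- The block `0 ... 0 1`. -/
def blk2 (k : ℕ) : List (Fin 2) := List.replicate k 0 ++ [1]

theorem flatten_blk2_injective : ∀ ms ms' : List ℕ,
    (ms.map blk2).flatten = (ms'.map blk2).flatten → ms = ms'
  | [], [], _ => rfl
  | [], m' :: ms', h => by simp [blk2] at h
  | m :: ms, [], h => by simp [blk2] at h
  | m :: ms, m' :: ms', h => by
    simp only [List.map_cons, List.flatten_cons, blk2, List.append_assoc, List.singleton_append]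
      at h
    have h1 := rep_inj _ _ _ _ h
    have h2 := flatten_blk2_injective ms ms' h1.2
    rw [h1.1, h2]

theorem sum_ne_zero {N : ℕ} (be : Equiv.Perm (Fin N) → F) (hne : ∃ σ, be σ ≠ 0) :
    ∑ σ, be σ • (List.ofFn fun t => mono F (blk2 (σ t))).prod ≠ 0 := by
  have hli : LinearIndependent F fun σ : Equiv.Perm (Fin N) =>
      (List.ofFn fun t => mono F (blk2 (σ t))).prod := by
    have h := (FreeAlgebra.basisFreeMonoid F (Fin 2)).linearIndependent.comp
      (fun σ : Equiv.Perm (Fin N) => FreeMonoid.ofList ((List.ofFn fun t => ((σ t : Fin N) : ℕ)).map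
        blk2).flatten) ?_
    · have hfun : (fun σ : Equiv.Perm (Fin N) =>
          (List.ofFn fun t => mono F (blk2 (σ t))).prod) =
          (FreeAlgebra.basisFreeMonoid F (Fin 2)) ∘ (fun σ : Equiv.Perm (Fin N) =>
            FreeMonoid.ofList ((List.ofFn fun t => ((σ t : Fin N) : ℕ)).map blk2).flatten) := by
        funext σ
        rw [Function.comp_apply, basis_eq_mono, FreeMonoid.toList_ofList, mono_flatten,
          List.map_map, List.map_ofFn]
        rfl
      rw [hfun]
      exact h
    · intro σ τ h
      have h1 := flatten_blk2_injective _ _ (FreeMonoid.ofList.injective h)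
      have h2 := List.ofFn_injective h1
      ext t
      exact congrFun h2 t
  intro h
  obtain ⟨σ, hσ⟩ := hne
  exact hσ (Fintype.linearIndependent_iff.mp hli be h σ)

theorem star_mem_of_jclosure {j : FA F}
    (hj : j ∈ jclosure F (insert 1 (Set.range (FreeAlgebra.ι F : Fin 2 → FA F)))) :
    star j = j := by
  have hsm : ∀ (c : F) (a : FA F), star (c • a) = c • star a := by
    intro c a
    rw [Algebra.smul_def, Algebra.smul_def, star_mul, FreeAlgebra.star_algebraMap,
      Algebra.commutes]
  refine jclosure_induction (F := F) (p := fun j => star j = j) ?_ ?_ ?_ ?_ ?_ hj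
  · intro a ha
    rcases Set.mem_insert_iff.mp ha with rfl | ⟨i, rfl⟩
    · exact star_one _
    · exact FreeAlgebra.star_ι i
  · exact star_zero _
  · intro a b ha hb
    rw [star_add, ha, hb]
  · intro c a ha
    rw [hsm, ha]
  · intro a b _ _ ha hb
    rw [star_add, star_mul, star_mul, ha, hb, add_comm]

/-- Cohn's theorem for two generators: symmetric elements are Jordan polynomials. -/
theorem cohn_two (h2 : (2 : F) ≠ 0) {h : FA F} (hs : star h = h) :
    h ∈ jclosure F (insert 1 (Set.range (FreeAlgebra.ι F : Fin 2 → FA F))) := by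
  set J := jclosure F (insert 1 (Set.range (FreeAlgebra.ι F : Fin 2 → FA F))) with hJ
  have hmul : ∀ u ∈ J, ∀ v ∈ J, u * v + v * u ∈ J := fun _ h _ h' => jclosure_mul h h'
  have hx : ∀ i, FreeAlgebra.ι F i ∈ J := fun i => subset_jclosure _ (by simp)
  have hsm : ∀ (c : F) (a : FA F), star (c • a) = c • star a := by
    intro c a
    rw [Algebra.smul_def, Algebra.smul_def, star_mul, FreeAlgebra.star_algebraMap,
      Algebra.commutes]
  have hmem : h ∈ V F (FreeAlgebra.ι F : Fin 2 → FA F) 2 := by
    apply mem_V_of_mem_adjoin h2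
    rw [FreeAlgebra.adjoin_range_ι]
    exact Algebra.mem_top
  have key : ∀ r ∈ V F (FreeAlgebra.ι F : Fin 2 → FA F) 2, r + star r ∈ J := by
    intro r hr
    induction hr using Submodule.span_induction with
    | mem r hr =>
      obtain ⟨L, hL, b, hb, rfl⟩ := hr
      have hsb : star b = b := star_mem_of_jclosure hb
      match L, hL with
      | [], _ =>
        simp only [lp, List.map_nil, List.prod_nil, one_mul, hsb]
        exact Submodule.add_mem _ hb hb
      | [i], _ =>
        simp only [lp, List.map_cons, List.map_nil, List.prod_cons, List.prod_nil, mul_one,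
          star_mul, hsb, FreeAlgebra.star_ι]
        exact hmul _ (hx i) _ hb
      | [i, j], _ =>
        simp only [lp, List.map_cons, List.map_nil, List.prod_cons, List.prod_nil, mul_one,
          star_mul, hsb, FreeAlgebra.star_ι]
        have := triple_mem h2 hmul (hx i) (hx j) hb
        rwa [mul_assoc b] at this
      | _ :: _ :: _ :: _, hL => simp at hL
    | zero => simp
    | add a b _ _ ha hb =>
      have : a + b + star (a + b) = (a + star a) + (b + star b) := by
        rw [star_add]; abel
      rw [this]
      exact Submodule.add_mem _ ha hb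
    | smul c a _ ha =>
      rw [hsm, ← smul_add]
      exact Submodule.smul_mem _ _ ha
  have h1 := key h hmem
  rw [hs] at h1
  have e : h = (2⁻¹ : F) • (h + h) := by
    rw [smul_add, half_add_half h2]
  rw [e]
  exact Submodule.smul_mem _ _ h1

/-- A multilinear identity of an associative algebra yields a nonzero Jordan identity in two
variables. -/
theorem exists_jordan_identity (h2 : (2 : F) ≠ 0) {M : Type*} [Ring M] [Algebra F M]
    (S : Subalgebra F M) {N : ℕ} (be : Equiv.Perm (Fin N) → F) (hne : ∃ σ, be σ ≠ 0)
    (hbe : ∀ b : Fin N → M, (∀ t, b t ∈ S) →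
      ∑ σ, be σ • (List.ofFn fun t => b (σ t)).prod = 0) :
    ∃ h ∈ jclosure F (Set.range (FreeAlgebra.ι F : Fin 2 → FA F)), h ≠ 0 ∧
      ∀ v : Fin 2 → M, (∀ i, v i ∈ S) → FreeAlgebra.lift F v h = 0 := by
  set p : FA F := ∑ σ, be σ • (List.ofFn fun t => mono F (blk2 (σ t))).prod with hp
  have hp0 : p ≠ 0 := sum_ne_zero be hne
  have hι : (FreeAlgebra.ι F (1 : Fin 2) : FA F) ≠ 0 := FreeAlgebra.ι_ne_zero 1
  set q : FA F := p * FreeAlgebra.ι F 1 with hq
  have hq0 : q ≠ 0 := mul_ne_zero hp0 hι
  have hsq0 : star q ≠ 0 := by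
    intro h
    apply hq0
    have := congrArg star h
    rwa [star_star, star_zero] at this
  have hh0 : q * star q ≠ 0 := mul_ne_zero hq0 hsq0
  have hval : ∀ v : Fin 2 → M, (∀ i, v i ∈ S) → FreeAlgebra.lift F v (q * star q) = 0 := by
    intro v hv
    have hmono : ∀ w : List (Fin 2), FreeAlgebra.lift F v (mono F w) ∈ S := by
      intro w
      rw [mono, map_list_prod, List.map_map]
      refine Subalgebra.list_prod_mem S ?_
      intro x hx
      rw [List.mem_map] at hx
      obtain ⟨i, _, rfl⟩ := hx
      rw [Function.comp_apply, FreeAlgebra.lift_ι_apply]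
      exact hv i
    have hpz : FreeAlgebra.lift F v p = 0 := by
      rw [hp, map_sum]
      rw [← hbe (fun t => FreeAlgebra.lift F v (mono F (blk2 t))) (fun t => hmono _)]
      refine Finset.sum_congr rfl fun σ _ => ?_
      rw [map_smul, map_list_prod, List.map_ofFn]
      rfl
    rw [map_mul, hq, map_mul, hpz, zero_mul, zero_mul]
  have hstar : star (q * star q) = q * star q := by
    rw [star_mul, star_star]
  obtain ⟨c, j, hj, hcj⟩ := mem_jclosure_insert_one (cohn_two h2 hstar)
  have haug : ∀ j ∈ jclosure F (Set.range (FreeAlgebra.ι F : Fin 2 → FA F)),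
      FreeAlgebra.lift F (fun _ : Fin 2 => (0 : F)) j = 0 := by
    intro j hj
    refine jclosure_induction (F := F)
      (p := fun j => FreeAlgebra.lift F (fun _ : Fin 2 => (0 : F)) j = 0) ?_ ?_ ?_ ?_ ?_ hj
    · rintro _ ⟨i, rfl⟩
      rw [FreeAlgebra.lift_ι_apply]
    · rw [map_zero]
    · intro a b ha hb
      rw [map_add, ha, hb, add_zero]
    · intro c a ha
      rw [map_smul, ha, smul_zero]
    · intro a b _ _ ha hb
      rw [map_add, map_mul, map_mul, ha, hb]
      simp
  have hc : c = 0 := by
    have h1 := congrArg (FreeAlgebra.lift F (fun _ : Fin 2 => (0 : F))) hcj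
    rw [map_mul, hq, map_mul, FreeAlgebra.lift_ι_apply, map_add, haug j hj, map_smul, map_one] at h1
    simpa using h1.symm
  rw [hc, zero_smul, zero_add] at hcj
  exact ⟨q * star q, by rw [hcj]; exact hj, hh0, hval⟩

end Pool.Agent.JordanPI
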