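import Mathlib
import Pool.Agent.JordanPI.Jordan

set_option autoImplicit false

open Finset

namespace Pool.Agent.JordanPI

variable {F : Type*} [Field F] {R : Type*} [Ring R] [Algebra F R] {n : ℕ}

/-- The vector `(0, a_1, ..., a_n, 1)`. -/
def bvec (a : Fin n → R) : Fin (n + 2) → R := Fin.cons 0 (Fin.snoc a 1 : Fin (n + 1) → R)

theorem bvec_zero (a : Fin n → R) : bvec a 0 = 0 := rfl

theorem bvec_last (a : Fin n → R) : bvec a (Fin.last (n + 1)) = 1 := by
  rw [bvec, ← Fin.succ_last, Fin.cons_succ, Fin.snoc_last]

theorem bvec_mid (a : Fin n → R) (j : Fin n) : bvec a j.castSucc.succ = a j := by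
  rw [bvec, Fin.cons_succ, Fin.snoc_castSucc]

/-- The shift matrix. -/
def xM (R : Type*) [Ring R] (n : ℕ) : Matrix (Fin (n + 2)) (Fin (n + 2)) R :=
  Matrix.of fun i k => if i.val + 1 = k.val then 1 else 0

/-- The matrix carrying the generators in its first column. -/
def yM (a : Fin n → R) : Matrix (Fin (n + 2)) (Fin (n + 2)) R :=
  Matrix.of fun i k => if k = 0 then bvec a i else 0

/-- The embedding of `R`. -/
def psi (a : Fin n → R) (c : R) : Matrix (Fin (n + 2)) (Fin (n + 2)) R :=
  Matrix.of fun i k => (if i = 0 ∧ k = 0 then c else 0) +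
    (if k = Fin.last (n + 1) then bvec a i * c else 0)

/-- The corner matrix. -/
def cM (n : ℕ) (c : R) : Matrix (Fin (n + 2)) (Fin (n + 2)) R :=
  Matrix.of fun i k => if i = 0 ∧ k = Fin.last (n + 1) then c else 0

theorem xM_pow (j : ℕ) (i k : Fin (n + 2)) :
    (xM R n ^ j) i k = if i.val + j = k.val then 1 else 0 := by
  induction j generalizing k with
  | zero =>
    rw [pow_zero, Matrix.one_apply]
    by_cases h : i = k
    · subst h; simp
    · rw [if_neg h, if_neg]
      intro h'
      exact h (Fin.ext (by simpa using h'))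
  | succ j ih =>
    rw [pow_succ, Matrix.mul_apply]
    have hx : ∀ l : Fin (n + 2), xM R n l k = if l.val + 1 = k.val then 1 else 0 := fun _ => rfl
    simp only [ih, hx]
    by_cases h : i.val + (j + 1) = k.val
    · rw [if_pos h, Finset.sum_eq_single (⟨i.val + j, by omega⟩ : Fin (n + 2))]
      · rw [if_pos rfl, if_pos (by simp only []; omega), mul_one]
      · intro l _ hl
        rw [if_neg, zero_mul]
        intro h'
        exact hl (Fin.ext (by simp [← h']))
      · intro h'
        exact absurd (Finset.mem_univ _) h'
    · rw [if_neg h]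
      refine Finset.sum_eq_zero fun l _ => ?_
      by_cases h1 : i.val + j = l.val
      · rw [if_pos h1, if_neg (by omega), mul_zero]
      · rw [if_neg h1, zero_mul]

/-- The Jordan product of the top power of the shift with `y`. -/
theorem G_eq (a : Fin n → R) :
    xM R n ^ (n + 1) * yM a + yM a * xM R n ^ (n + 1) = psi a 1 := by
  ext i k
  rw [Matrix.add_apply, Matrix.mul_apply, Matrix.mul_apply]
  simp only [xM_pow, yM, psi, Matrix.of_apply, mul_one]
  congr 1
  · by_cases hi : i = 0
    · subst hi
      rw [Finset.sum_eq_single (Fin.last (n + 1))]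
      · rw [if_pos (by simp), one_mul, bvec_last]
        simp
      · intro l _ hl
        rw [if_neg, zero_mul]
        intro h
        apply hl
        apply Fin.ext
        simp only [Fin.val_zero, zero_add] at h
        simp [← h]
      · intro h'
        exact absurd (Finset.mem_univ _) h'
    · rw [if_neg (fun h => hi h.1)]
      refine Finset.sum_eq_zero fun l _ => ?_
      rw [if_neg, zero_mul]
      intro h
      apply hi
      apply Fin.ext
      have := l.isLt
      simp only [Fin.val_zero]
      omega
  · rw [Finset.sum_eq_single (0 : Fin (n + 2))]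
    · rw [if_pos rfl]
      by_cases hk : k = Fin.last (n + 1)
      · subst hk
        simp
      · rw [if_neg hk, if_neg, mul_zero]
        intro h
        apply hk
        apply Fin.ext
        simp only [Fin.val_zero, zero_add] at h
        simp [← h]
    · intro l _ hl
      rw [if_neg hl, zero_mul]
    · intro h'
      exact absurd (Finset.mem_univ _) h'

theorem psi_mul_x_pow (a : Fin n → R) (j : Fin (n + 1)) (i k : Fin (n + 2)) :
    (psi a 1 * xM R n ^ (j.val + 1)) i k = if i = 0 ∧ k = j.succ then 1 else 0 := by
  rw [Matrix.mul_apply]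
  simp only [xM_pow, psi, Matrix.of_apply, mul_one]
  by_cases h : k = j.succ
  · subst h
    rw [Finset.sum_eq_single (0 : Fin (n + 2))]
    · rw [if_neg (show ¬ (0 : Fin (n + 2)) = Fin.last (n + 1) from by
        intro h; have := congrArg Fin.val h; simp at this)]
      simp
    · intro l _ hl
      rw [if_neg (show ¬ l.val + (j.val + 1) = j.succ.val from by
        intro h
        apply hl
        apply Fin.ext
        simp only [Fin.val_succ] at h
        simp only [Fin.val_zero]
        omega), mul_zero]
    · intro h'
      exact absurd (Finset.mem_univ _) h'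
  · rw [if_neg (fun hh => h hh.2)]
    refine Finset.sum_eq_zero fun l _ => ?_
    by_cases h1 : l.val + (j.val + 1) = k.val
    · have hl0 : l ≠ 0 := by
        rintro rfl
        apply h
        apply Fin.ext
        simp only [Fin.val_zero, zero_add] at h1
        simp [← h1]
      have hl1 : l ≠ Fin.last (n + 1) := by
        rintro rfl
        have := k.isLt
        simp only [Fin.val_last] at h1
        omega
      rw [if_neg (fun hh => hl0 hh.2), if_neg hl1, add_zero, zero_mul]
    · rw [if_neg h1, mul_zero]

theorem corner_eq (a : Fin n → R) (j : Fin (n + 1)) :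
    psi a 1 * xM R n ^ (j.val + 1) * psi a 1 = cM n (bvec a j.succ) := by
  ext i k
  rw [Matrix.mul_apply]
  simp only [psi_mul_x_pow]
  rw [Finset.sum_eq_single j.succ]
  · by_cases hi : i = 0
    · rw [if_pos ⟨hi, rfl⟩, one_mul]
      simp only [psi, cM, Matrix.of_apply, mul_one]
      rw [if_neg (fun h => Fin.succ_ne_zero j h.1), zero_add]
      by_cases hk : k = Fin.last (n + 1)
      · rw [if_pos hk, if_pos ⟨hi, hk⟩]
      · rw [if_neg hk, if_neg (fun h => hk h.2)]
    · rw [if_neg (fun h => hi h.1), zero_mul]
      simp only [cM, Matrix.of_apply]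
      rw [if_neg (fun h => hi h.1)]
  · intro l _ hl
    rw [if_neg (fun h => hl h.2), zero_mul]
  · intro h'
    exact absurd (Finset.mem_univ _) h'

theorem psi_eq (a : Fin n → R) (c : R) : cM n c * yM a + yM a * cM n c = psi a c := by
  ext i k
  rw [Matrix.add_apply, Matrix.mul_apply, Matrix.mul_apply]
  simp only [cM, yM, psi, Matrix.of_apply]
  congr 1
  · rw [Finset.sum_eq_single (Fin.last (n + 1))]
    · rw [bvec_last]
      by_cases hi : i = 0 <;> by_cases hk : k = 0 <;> simp [hi, hk]
    · intro l _ hl
      rw [if_neg (fun h => hl h.2), zero_mul]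
    · intro h'
      exact absurd (Finset.mem_univ _) h'
  · rw [Finset.sum_eq_single (0 : Fin (n + 2))]
    · rw [if_pos rfl]
      by_cases hk : k = Fin.last (n + 1) <;> simp [hk]
    · intro l _ hl
      rw [if_neg hl, zero_mul]
    · intro h'
      exact absurd (Finset.mem_univ _) h'

theorem psi_mul (a : Fin n → R) (c d : R) : psi a c * psi a d = psi a (c * d) := by
  ext i k
  rw [Matrix.mul_apply]
  have hlast : ¬ (0 : Fin (n + 2)) = Fin.last (n + 1) := by
    intro h; have := congrArg Fin.val h; simp at this
  have h1 : ∀ l : Fin (n + 2), psi a c i l * psi a d l k =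
      (if l = 0 then (if i = 0 then c else 0) * psi a d 0 k else 0) +
      (if l = Fin.last (n + 1) then (bvec a i * c) * psi a d (Fin.last (n + 1)) k else 0) := by
    intro l
    by_cases h0 : l = 0
    · subst h0
      simp only [psi, Matrix.of_apply]
      rw [if_neg hlast, if_neg hlast]
      simp
    · by_cases h1 : l = Fin.last (n + 1)
      · subst h1
        simp only [psi, Matrix.of_apply]
        rw [if_neg (fun h => h0 h.2), if_neg h0]
        simp
      · rw [if_neg h0, if_neg h1]
        simp only [psi, Matrix.of_apply]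
        rw [if_neg (fun h => h0 h.2), if_neg h1]
        simp
  simp only [h1]
  rw [Finset.sum_add_distrib, Finset.sum_ite_eq' Finset.univ (0 : Fin (n + 2)),
    Finset.sum_ite_eq' Finset.univ (Fin.last (n + 1))]
  rw [if_pos (Finset.mem_univ _), if_pos (Finset.mem_univ _)]
  simp only [psi, Matrix.of_apply, bvec_zero, bvec_last]
  congr 1
  · by_cases hi : i = 0 <;> by_cases hk : k = 0 <;> simp [hi, hk]
  · have : ¬ Fin.last (n + 1) = (0 : Fin (n + 2)) := fun h => hlast h.symm
    rw [if_neg (fun h => this h.1)]
    by_cases hk : k = Fin.last (n + 1) <;> simp [hk, mul_assoc]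

theorem psi_add (a : Fin n → R) (c d : R) : psi a (c + d) = psi a c + psi a d := by
  ext i k
  simp only [psi, Matrix.of_apply, Matrix.add_apply, mul_add]
  have e1 : ∀ (P : Prop) [Decidable P] (u v : R), (if P then u + v else 0) =
      (if P then u else 0) + (if P then v else 0) := by
    intro P _ u v
    split_ifs <;> simp
  rw [e1, e1]
  abel

theorem psi_smul (a : Fin n → R) (t : F) (c : R) : psi a (t • c) = t • psi a c := by
  ext i k
  simp only [psi, Matrix.of_apply, Matrix.smul_apply, smul_add, mul_smul_comm]
  congr 1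
  · split_ifs <;> simp
  · split_ifs <;> simp

theorem psi_injective (a : Fin n → R) : Function.Injective (psi a) := by
  intro c d h
  have h1 := congrFun (congrFun h 0) 0
  have hlast : ¬ (0 : Fin (n + 2)) = Fin.last (n + 1) := by
    intro h; have := congrArg Fin.val h; simp at this
  simpa [psi, hlast] using h1

/-- The embedding maps the Jordan algebra generated by the `a i` into the Jordan algebra generated
by two matrices. -/
theorem psi_mem (h2 : (2 : F) ≠ 0) (a : Fin n → R) {c : R}
    (hc : c ∈ jclosure F (Set.range a)) :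
    psi a c ∈ jclosure F ({xM R n, yM a} : Set (Matrix (Fin (n + 2)) (Fin (n + 2)) R)) := by
  set J := jclosure F ({xM R n, yM a} : Set (Matrix (Fin (n + 2)) (Fin (n + 2)) R)) with hJ
  have hmul : ∀ u ∈ J, ∀ v ∈ J, u * v + v * u ∈ J := fun _ h _ h' => jclosure_mul h h'
  have hx : xM R n ∈ J := subset_jclosure _ (by simp)
  have hy : yM a ∈ J := subset_jclosure _ (by simp)
  have hG : psi a 1 ∈ J := by
    rw [← G_eq]
    exact hmul _ (pow_succ_mem h2 hmul hx n) _ hy
  have hgen : ∀ j : Fin n, psi a (a j) ∈ J := by
    intro j
    have h := uop_mem h2 hmul hG (pow_succ_mem h2 hmul hx j.castSucc.val)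
    rw [corner_eq, bvec_mid] at h
    rw [← psi_eq]
    exact hmul _ h _ hy
  refine jclosure_induction (F := F) (p := fun c => psi a c ∈ J) ?_ ?_ ?_ ?_ ?_ hc
  · rintro _ ⟨j, rfl⟩
    exact hgen j
  · have : psi a (0 : R) = 0 := by
      have := psi_add a (0 : R) 0
      rw [add_zero] at this
      exact left_eq_add.mp this
    rw [this]
    exact Submodule.zero_mem _
  · intro u v hu hv
    rw [psi_add]
    exact Submodule.add_mem _ hu hv
  · intro t u hu
    rw [psi_smul]
    exact Submodule.smul_mem _ _ hu
  · intro u v _ _ hu hv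
    rw [psi_add, ← psi_mul, ← psi_mul]
    exact hmul _ hu _ hv

end Pool.Agent.JordanPI
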