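import Mathlib
import Pool.Agent.JordanPI.Rewrite

set_option autoImplicit false

open Finset

namespace Pool.Agent.JordanPI

variable {F : Type*} [Field F] {R : Type*} [Ring R] [Algebra F R]

/-- Functions with values in a subspace. -/
def piSub (ι : Type*) (J : Submodule F R) : Submodule F (ι → R) where
  carrier := {f | ∀ c, f c ∈ J}
  zero_mem' := fun _ => J.zero_mem
  add_mem' := fun ha hb c => J.add_mem (ha c) (hb c)
  smul_mem' := fun a _ hf c => J.smul_mem a (hf c)

theorem piSub_isSys (ι : Type*) {J J1 : Submodule F R} (h : IsSys J J1) :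
    IsSys (piSub ι J) (piSub ι J1) where
  comm := fun _ ha _ hb _ hc i => h.comm _ (ha i) _ (hb i) _ (hc i)
  triple := fun _ ha _ hb _ hc i => h.triple _ (ha i) _ (hb i) _ (hc i)
  anti := fun _ ha _ hb i => h.anti _ (ha i) _ (hb i)

theorem piSub_hasIdent (ι : Type*) {J : Submodule F R} {d : ℕ} (h : HasIdent J d) :
    HasIdent (piSub ι J) d := by
  obtain ⟨al, h1, hal⟩ := h
  refine ⟨al, h1, fun y hy => ?_⟩
  funext c
  have := hal (fun i => y i c) (fun i => hy i c)
  rw [Finset.sum_apply, Pi.zero_apply, ← this]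
  refine Finset.sum_congr rfl fun σ _ => ?_
  rw [Pi.smul_apply]
  congr 1
  have h2 := map_list_prod (Pi.evalRingHom (fun _ : ι => R) c) (List.ofFn fun i => y (σ i))
  rw [List.map_ofFn] at h2
  exact h2

variable {κ : Type*} [Fintype κ] [DecidableEq κ]

/-- Numbering of the entries of the generic matrices. -/
noncomputable def code {N : ℕ} (p : Fin N × κ × κ) : ℕ :=
  Nat.pair p.1.val (Nat.pair (Fintype.equivFin κ p.2.1).val (Fintype.equivFin κ p.2.2).val)

omit [DecidableEq κ] in
theorem code_injective {N : ℕ} : Function.Injective (code : Fin N × κ × κ → ℕ) := by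
  rintro ⟨i, k, l⟩ ⟨i', k', l'⟩ h
  simp only [code, Nat.pair_eq_pair] at h
  obtain ⟨h1, h2, h3⟩ := h
  have e1 := Fin.ext h1
  have e2 := (Fintype.equivFin κ).injective (Fin.ext h2)
  have e3 := (Fintype.equivFin κ).injective (Fin.ext h3)
  rw [e1, e2, e3]

/-- The generic matrices. -/
noncomputable def genMat {R' : Type*} (z : ℕ → R') {N : ℕ} (i : Fin N) : Matrix κ κ R' :=
  Matrix.of fun k l => z (code (i, k, l))

omit [Algebra F R] in
theorem prod_entry_mem [Algebra F R] (z : ℕ → R) {N : ℕ} (L : List (Fin N)) (hL : L.Nodup)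
    (k l : κ) :
    ((L.map (genMat (κ := κ) z)).prod k l) ∈ Submodule.span F
      {r | ∃ φ : Fin N → κ × κ, r = zp z (L.map fun i => code (i, φ i))} := by
  induction L generalizing k l with
  | nil =>
    simp only [List.map_nil, List.prod_nil]
    by_cases h : k = l
    · subst h
      rw [Matrix.one_apply_eq]
      refine Submodule.subset_span ⟨fun _ => (k, k), ?_⟩
      simp [zp]
    · rw [Matrix.one_apply_ne h]
      exact Submodule.zero_mem _
  | cons i L ih =>
    rw [List.nodup_cons] at hL
    rw [List.map_cons, List.prod_cons, Matrix.mul_apply]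
    refine Submodule.sum_mem _ fun j _ => ?_
    have h := ih hL.2 j l
    have ha : zp z [code (i, k, j)] ∈ Submodule.span F {zp z [code (i, k, j)]} :=
      Submodule.mem_span_singleton_self _
    have e : genMat z i k j = zp z [code (i, k, j)] := by
      simp [genMat, zp]
    rw [e]
    refine span_mul_mem ?_ ha h
    rintro _ rfl _ ⟨φ, rfl⟩
    refine Submodule.subset_span ⟨Function.update φ i (k, j), ?_⟩
    rw [← zp_append]
    congr 1
    rw [List.map_cons, Function.update_self, List.singleton_append]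
    congr 1
    refine List.map_congr_left fun t ht => ?_
    have : t ≠ i := by
      rintro rfl
      exact hL.1 ht
    rw [Function.update_of_ne this]

/-- The set of letters used by a choice function. -/
noncomputable def letSet {N : ℕ} (φ : Fin N → κ × κ) : Finset ℕ :=
  Finset.univ.image fun i => code (i, φ i)

omit [DecidableEq κ] in
theorem letSet_inj {N : ℕ} (φ : Fin N → κ × κ) :
    Function.Injective fun i : Fin N => code (i, φ i) := by
  intro i j h
  have := code_injective h
  exact (Prod.ext_iff.mp this).1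

omit [DecidableEq κ] in
theorem card_letSet {N : ℕ} (φ : Fin N → κ × κ) : (letSet φ).card = N := by
  rw [letSet, Finset.card_image_of_injective _ (letSet_inj φ), Finset.card_univ, Fintype.card_fin]

omit [DecidableEq κ] in
theorem map_mem_arr {N : ℕ} (φ : Fin N → κ × κ) (σ : Equiv.Perm (Fin N)) :
    ((List.ofFn σ).map fun i => code (i, φ i)) ∈ arr (letSet φ) := by
  rw [mem_arr]
  constructor
  · refine List.Nodup.map (letSet_inj φ) ?_
    rw [List.nodup_ofFn]
    exact σ.injective
  · ext t
    simp only [List.mem_toFinset, List.mem_map, List.mem_ofFn, letSet, Finset.mem_image,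
      Finset.mem_univ, true_and]
    constructor
    · rintro ⟨a, ⟨i, rfl⟩, rfl⟩
      exact ⟨σ i, rfl⟩
    · rintro ⟨a, rfl⟩
      exact ⟨a, ⟨σ.symm a, by simp⟩, rfl⟩

/-- The finite set of normal forms. -/
noncomputable def normals (κ : Type*) [Fintype κ] [DecidableEq κ] (N d : ℕ) : Finset (List ℕ) :=
  (Finset.univ : Finset (Fin N → κ × κ)).biUnion fun φ => avl (3 * d) (letSet φ)

theorem genMat_entry_mem {J J1 : Submodule F R} (hs : IsSys J J1) {d : ℕ} (hid : HasIdent J d)
    {z : ℕ → R} (hz : ∀ a, z a ∈ J1) {N : ℕ} (σ : Equiv.Perm (Fin N)) (k l : κ) :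
    ((List.ofFn fun i => genMat (κ := κ) z (σ i)).prod k l) ∈
      Submodule.span F ((zp z) '' (normals κ N d : Set (List ℕ))) := by
  have hnd : (List.ofFn σ).Nodup := by
    rw [List.nodup_ofFn]; exact σ.injective
  have h := prod_entry_mem (F := F) (κ := κ) z (List.ofFn σ) hnd k l
  rw [List.map_ofFn] at h
  refine (Submodule.span_le.mpr ?_) h
  rintro _ ⟨φ, rfl⟩
  have h2 := zp_mem_span_avl hs hid hz (letSet φ) _ (map_mem_arr φ σ)
  refine Submodule.span_mono ?_ h2
  refine Set.image_mono ?_
  intro w hw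
  rw [Finset.mem_coe, normals, Finset.mem_biUnion]
  exact ⟨φ, Finset.mem_univ _, hw⟩

theorem card_normals_lt (κ : Type*) [Fintype κ] [DecidableEq κ] (d : ℕ) :
    ∃ N : ℕ, Fintype.card κ * (Fintype.card κ * (normals κ N d).card) < N.factorial := by
  set q := Fintype.card κ with hq
  obtain ⟨K, hK0, hK⟩ := card_avl_bound (α := ℕ) (3 * d) (2 * (q ^ 2 + 1)) (by positivity)
  obtain ⟨N, hN⟩ := pow_unbounded_of_one_lt ((q : ℝ) * q * K) (one_lt_two)
  refine ⟨N, ?_⟩
  have h1 : ((normals κ N d).card : ℝ) ≤
      ((q : ℝ) * q) ^ N * (K * N.factorial / ((2 * (q ^ 2 + 1) : ℕ) : ℝ) ^ N) := by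
    have h2 : (normals κ N d).card ≤
        ∑ φ : Fin N → κ × κ, (avl (3 * d) (letSet φ)).card := Finset.card_biUnion_le
    have h3 : ((normals κ N d).card : ℝ) ≤
        ∑ φ : Fin N → κ × κ, ((avl (3 * d) (letSet φ)).card : ℝ) := by exact_mod_cast h2
    refine h3.trans ?_
    have h4 : ∀ φ ∈ (Finset.univ : Finset (Fin N → κ × κ)),
        ((avl (3 * d) (letSet φ)).card : ℝ) ≤
        K * N.factorial / ((2 * (q ^ 2 + 1) : ℕ) : ℝ) ^ N := by
      intro φ _
      have := hK (letSet φ)
      rwa [card_letSet] at this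
    refine (Finset.sum_le_sum h4).trans ?_
    rw [Finset.sum_const, nsmul_eq_mul, Finset.card_univ, Fintype.card_fun, Fintype.card_prod,
      Fintype.card_fin, ← hq]
    push_cast
    exact le_rfl
  have h5 : ((q : ℝ) * q) ^ N / ((2 * (q ^ 2 + 1) : ℕ) : ℝ) ^ N ≤ (1 / 2) ^ N := by
    rw [← div_pow]
    refine pow_le_pow_left₀ (by positivity) ?_ N
    push_cast
    rw [div_le_div_iff₀ (by positivity) (by norm_num)]
    nlinarith
  have hNpos : (0 : ℝ) < N.factorial := by exact_mod_cast Nat.factorial_pos N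
  have hreal : (q : ℝ) * (q * (normals κ N d).card) < N.factorial := by
    calc (q : ℝ) * (q * (normals κ N d).card)
        ≤ q * (q * (((q : ℝ) * q) ^ N *
            (K * N.factorial / ((2 * (q ^ 2 + 1) : ℕ) : ℝ) ^ N))) := by gcongr
      _ = (q * q * K) * N.factorial *
            (((q : ℝ) * q) ^ N / ((2 * (q ^ 2 + 1) : ℕ) : ℝ) ^ N) := by ring
      _ ≤ (q * q * K) * N.factorial * (1 / 2) ^ N := by gcongr
      _ = ((q * q * K) / 2 ^ N) * N.factorial := by
          rw [one_div, inv_pow]; ring
      _ < 1 * N.factorial := by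
          refine mul_lt_mul_of_pos_right ?_ hNpos
          rw [div_lt_one (by positivity)]
          exact hN
      _ = N.factorial := one_mul _
  exact_mod_cast hreal

/-- Matrices over `J1` satisfy a multilinear identity. -/
theorem exists_matrix_identity {J J1 : Submodule F R} (hs : IsSys J J1) {d : ℕ}
    (hid : HasIdent J d) (κ : Type*) [Fintype κ] [DecidableEq κ] :
    ∃ (N : ℕ) (be : Equiv.Perm (Fin N) → F), (∃ σ, be σ ≠ 0) ∧
      ∀ C : Fin N → Matrix κ κ R, (∀ i k l, C i k l ∈ J1) →
        ∑ σ, be σ • (List.ofFn fun t => C (σ t)).prod = 0 := by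
  classical
  obtain ⟨N, hN⟩ := card_normals_lt κ d
  set z : ℕ → ((ℕ → J1) → R) := fun n c => (c n : R) with hzdef
  have hz : ∀ a, z a ∈ piSub (ℕ → J1) J1 := fun a c => (c a).2
  set W : Submodule F ((ℕ → J1) → R) :=
    Submodule.span F ((zp z) '' (normals κ N d : Set (List ℕ))) with hW
  have hfinite : Set.Finite ((zp z) '' (normals κ N d : Set (List ℕ))) :=
    (Finset.finite_toSet _).image _
  haveI : Module.Finite F W := Module.Finite.span_of_finite F hfinite
  have hrank : Module.finrank F W ≤ (normals κ N d).card := by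
    have h1 : W = Submodule.span F (((normals κ N d).image (zp z) : Finset _) : Set _) := by
      rw [hW, Finset.coe_image]
    rw [h1]
    exact (finrank_span_finset_le_card _).trans Finset.card_image_le
  have hmem := fun (σ : Equiv.Perm (Fin N)) (k l : κ) =>
    genMat_entry_mem (κ := κ) (piSub_isSys (ℕ → J1) hs) (piSub_hasIdent (ℕ → J1) hid) hz σ k l
  let v : Equiv.Perm (Fin N) → (κ → κ → W) := fun σ k l =>
    ⟨(List.ofFn fun i => genMat (κ := κ) z (σ i)).prod k l, hmem σ k l⟩
  have hnli : ¬ LinearIndependent F v := by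
    intro hli
    have h1 := hli.fintype_card_le_finrank
    rw [Fintype.card_perm, Fintype.card_fin, Module.finrank_pi_fintype] at h1
    simp only [Module.finrank_pi_fintype, Finset.sum_const, Finset.card_univ, smul_eq_mul] at h1
    have h2 : Fintype.card κ * (Fintype.card κ * Module.finrank F W) ≤
        Fintype.card κ * (Fintype.card κ * (normals κ N d).card) := by gcongr
    omega
  rw [Fintype.not_linearIndependent_iff] at hnli
  obtain ⟨be, hbe, hne⟩ := hnli
  refine ⟨N, be, hne, ?_⟩
  intro C hC
  -- specialise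
  let c : ℕ → J1 := Function.extend (code : Fin N × κ × κ → ℕ)
    (fun p => ⟨C p.1 p.2.1 p.2.2, hC _ _ _⟩) 0
  have hc : ∀ i k l, (c (code (i, k, l)) : R) = C i k l := by
    intro i k l
    have := Function.Injective.extend_apply (code_injective (N := N) (κ := κ))
      (fun p : Fin N × κ × κ => (⟨C p.1 p.2.1 p.2.2, hC _ _ _⟩ : J1)) 0 (i, k, l)
    exact congrArg Subtype.val this
  have hmap : ∀ i, (genMat (κ := κ) z i).map (fun f : (ℕ → J1) → R => f c) = C i := by
    intro i
    ext k l
    simp only [Matrix.map_apply, genMat, Matrix.of_apply, hzdef]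
    exact hc i k l
  have hprod : ∀ (σ : Equiv.Perm (Fin N)) (k l : κ),
      ((List.ofFn fun i => genMat (κ := κ) z (σ i)).prod k l) c =
      (List.ofFn fun t => C (σ t)).prod k l := by
    intro σ k l
    have h1 := map_list_prod ((Pi.evalRingHom (fun _ : ℕ → J1 => R) c).mapMatrix (m := κ))
      (List.ofFn fun i => genMat (κ := κ) z (σ i))
    rw [List.map_ofFn] at h1
    have h2 : (⇑((Pi.evalRingHom (fun _ : ℕ → J1 => R) c).mapMatrix (m := κ)) ∘
        fun i => genMat (κ := κ) z (σ i)) = fun t => C (σ t) := by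
      funext t
      exact hmap (σ t)
    rw [h2] at h1
    have h3 := congrFun (congrFun h1 k) l
    exact h3
  ext k l
  have h1 := congrFun (congrFun hbe k) l
  have h2 := congrArg (fun w : W => (w : (ℕ → J1) → R) c) h1
  rw [Matrix.sum_apply]
  simp only [Matrix.smul_apply, Matrix.zero_apply]
  have h3 : ((∑ σ, be σ • v σ) k l : W) = ∑ σ, be σ • v σ k l := by
    rw [Finset.sum_apply, Finset.sum_apply]
    rfl
  have h4 : (((∑ σ, be σ • v σ) k l : W) : (ℕ → J1) → R) c =
      ∑ σ, be σ • (List.ofFn fun t => C (σ t)).prod k l := by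
    rw [h3, Submodule.coe_sum, Finset.sum_apply]
    refine Finset.sum_congr rfl fun σ _ => ?_
    rw [← hprod σ k l]
    rfl
  rw [← h4]
  exact h2

end Pool.Agent.JordanPI
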