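import Mathlib
import Pool.Agent.JordanPI.Closure
import Pool.Agent.JordanPI.Generic

set_option autoImplicit false

open Finset

namespace Pool.Agent.JordanPI

variable {F : Type*} [Field F] {R : Type*} [Ring R] [Algebra F R]

/-- Words of length at most `n` in `n` letters. -/
abbrev WordIdx (n : ℕ) : Type := Σ k : Fin (n + 1), (Fin k → Fin n)

/-- The word with a given index. -/
def wd {n : ℕ} (l : WordIdx n) : List (Fin n) := List.ofFn l.2

theorem exists_idx {n : ℕ} (L : List (Fin n)) (hL : L.length ≤ n) : ∃ l : WordIdx n, wd l = L := by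
  refine ⟨⟨⟨L.length, by omega⟩, fun i => L.get i⟩, ?_⟩
  exact List.ofFn_get L

theorem exists_coeffs {n : ℕ} {x : Fin n → R} {r : R} (hr : r ∈ V F x n) :
    ∃ c : WordIdx n → R, (∀ l, c l ∈ J1 F x) ∧ r = ∑ l, lp x (wd l) * c l := by
  classical
  induction hr using Submodule.span_induction with
  | mem r h =>
    obtain ⟨L, hL, b, hb, rfl⟩ := h
    obtain ⟨l, hl⟩ := exists_idx L hL
    refine ⟨fun t => if t = l then b else 0, ?_, ?_⟩
    · intro t
      by_cases h : t = l
      · simp only [h, if_true]; exact hb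
      · simp only [h, if_false]; exact Submodule.zero_mem _
    · rw [Finset.sum_eq_single l]
      · simp only [if_true, hl]
      · intro t _ ht
        simp only [if_neg ht, mul_zero]
      · intro h
        exact absurd (Finset.mem_univ l) h
  | zero => exact ⟨fun _ => 0, fun _ => Submodule.zero_mem _, by simp⟩
  | add a b _ _ ha hb =>
    obtain ⟨c, hc, rfl⟩ := ha
    obtain ⟨e, he, rfl⟩ := hb
    refine ⟨fun l => c l + e l, fun l => Submodule.add_mem _ (hc l) (he l), ?_⟩
    rw [← Finset.sum_add_distrib]
    exact Finset.sum_congr rfl fun l _ => by rw [mul_add]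
  | smul t a _ ha =>
    obtain ⟨c, hc, rfl⟩ := ha
    refine ⟨fun l => t • c l, fun l => Submodule.smul_mem _ _ (hc l), ?_⟩
    rw [Finset.smul_sum]
    exact Finset.sum_congr rfl fun l _ => by rw [mul_smul_comm]

variable {n : ℕ} {x : Fin n → R} (h2 : (2 : F) ≠ 0)

/-- Matrix intertwining `M_m(S)` with matrices over the Jordan algebra. -/
def interX (x : Fin n → R) (μ : Type*) [DecidableEq μ] : Matrix μ (μ × WordIdx n) R :=
  Matrix.of fun i p => if i = p.1 then lp x (wd p.2) else 0

include h2 in
theorem exists_inter {μ : Type*} [Fintype μ] [DecidableEq μ] (b : Matrix μ μ R)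
    (hb : ∀ i j, b i j ∈ Algebra.adjoin F (Set.range x)) :
    ∃ C : Matrix (μ × WordIdx n) (μ × WordIdx n) R, (∀ p q, C p q ∈ J1 F x) ∧
      b * interX x μ = interX x μ * C := by
  have h : ∀ (i : μ) (q : μ × WordIdx n), ∃ c : WordIdx n → R, (∀ l, c l ∈ J1 F x) ∧
      b i q.1 * lp x (wd q.2) = ∑ l, lp x (wd l) * c l := by
    intro i q
    exact exists_coeffs (V_mul_lp h2 (wd q.2) (mem_V_of_mem_adjoin h2 (hb i q.1)))
  choose c hc1 hc2 using h
  refine ⟨Matrix.of fun p q => c p.1 q p.2, fun p q => hc1 _ _ _, ?_⟩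
  ext i q
  rw [Matrix.mul_apply, Matrix.mul_apply]
  have e1 : ∑ j, b i j * interX x μ j q = b i q.1 * lp x (wd q.2) := by
    rw [Finset.sum_eq_single q.1]
    · simp [interX]
    · intro j _ hj
      simp [interX, hj]
    · intro h
      exact absurd (Finset.mem_univ _) h
  rw [e1, hc2, Fintype.sum_prod_type, Finset.sum_eq_single i]
  · refine Finset.sum_congr rfl fun l _ => ?_
    simp [interX]
  · intro j _ hj
    refine Finset.sum_eq_zero fun l _ => ?_
    have : interX x μ i (j, l) = 0 := by
      simp [interX, Ne.symm hj]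
    rw [this, zero_mul]
  · intro h
    exact absurd (Finset.mem_univ _) h

include h2 in
/-- Matrices over the associative envelope satisfy a multilinear identity. -/
theorem exists_envelope_identity {J : Submodule F R} (hs : IsSys J (J1 F x)) {d : ℕ}
    (hid : HasIdent J d) (μ : Type*) [Fintype μ] [DecidableEq μ] :
    ∃ (N : ℕ) (be : Equiv.Perm (Fin N) → F), (∃ σ, be σ ≠ 0) ∧
      ∀ b : Fin N → Matrix μ μ R, (∀ t i j, b t i j ∈ Algebra.adjoin F (Set.range x)) →
        ∑ σ, be σ • (List.ofFn fun t => b (σ t)).prod = 0 := by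
  obtain ⟨N, be, hne, hbe⟩ := exists_matrix_identity hs hid (μ × WordIdx n)
  refine ⟨N, be, hne, ?_⟩
  intro b hb
  choose C hC1 hC2 using fun t => exists_inter h2 (b t) (hb t)
  have hprod : ∀ L : List (Fin N), (L.map b).prod * interX x μ = interX x μ * (L.map C).prod := by
    intro L
    induction L with
    | nil => simp
    | cons t L ih =>
      rw [List.map_cons, List.prod_cons, List.map_cons, List.prod_cons, Matrix.mul_assoc, ih,
        ← Matrix.mul_assoc, hC2, Matrix.mul_assoc]
  have hprod' : ∀ σ : Equiv.Perm (Fin N), (List.ofFn fun t => b (σ t)).prod * interX x μ =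
      interX x μ * (List.ofFn fun t => C (σ t)).prod := by
    intro σ
    have := hprod (List.ofFn σ)
    rw [List.map_ofFn, List.map_ofFn] at this
    exact this
  have hzero := hbe C (fun t p q => hC1 t p q)
  have hX : (∑ σ, be σ • (List.ofFn fun t => b (σ t)).prod) * interX x μ = 0 := by
    rw [Matrix.sum_mul]
    have : ∀ σ ∈ (Finset.univ : Finset (Equiv.Perm (Fin N))),
        be σ • (List.ofFn fun t => b (σ t)).prod * interX x μ =
        interX x μ * (be σ • (List.ofFn fun t => C (σ t)).prod) := by
      intro σ _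
      rw [Matrix.smul_mul, hprod', Matrix.mul_smul]
    rw [Finset.sum_congr rfl this, ← Matrix.mul_sum, hzero, Matrix.mul_zero]
  ext i j
  obtain ⟨l, hl⟩ := exists_idx (n := n) [] (by simp)
  have h := congrFun (congrFun hX i) (j, l)
  rw [Matrix.mul_apply, Finset.sum_eq_single j] at h
  · have e : interX x μ j (j, l) = 1 := by
      simp [interX, hl, lp]
    rw [e, mul_one] at h
    exact h
  · intro k _ hk
    simp [interX, hk]
  · intro h
    exact absurd (Finset.mem_univ _) h

end Pool.Agent.JordanPI
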