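import Mathlib
import Pool.Agent.JordanPI.Rewrite

set_option autoImplicit false

open Finset

namespace Pool.Agent.JordanPI

variable {F : Type*} [Field F] {R : Type*} [Ring R] [Algebra F R] {X : Type*}

/-- Coefficients of a noncommutative polynomial, as a finitely supported function. -/
noncomputable def cf (f : FreeAlgebra F X) : FreeMonoid X →₀ F :=
  (FreeAlgebra.equivMonoidAlgebraFreeMonoid f).coeff

theorem cf_ne_zero {f : FreeAlgebra F X} (hf : f ≠ 0) : cf f ≠ 0 := by
  intro h
  apply hf
  have h1 : FreeAlgebra.equivMonoidAlgebraFreeMonoid f = 0 := by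
    have := congrArg MonoidAlgebra.ofCoeff h
    exact this
  exact (map_eq_zero_iff _ FreeAlgebra.equivMonoidAlgebraFreeMonoid.injective).mp h1

theorem lift_eq_sum (a : X → R) (f : FreeAlgebra F X) :
    FreeAlgebra.lift F a f = (cf f).sum fun w c => c • (w.toList.map a).prod := by
  have h : FreeAlgebra.lift F a = (MonoidAlgebra.lift F R (FreeMonoid X) (FreeMonoid.lift a)).comp
      (FreeAlgebra.equivMonoidAlgebraFreeMonoid : FreeAlgebra F X ≃ₐ[F] _).toAlgHom := by
    apply FreeAlgebra.hom_ext
    funext x
    simp [FreeAlgebra.equivMonoidAlgebraFreeMonoid]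
  rw [h]
  change MonoidAlgebra.lift F R (FreeMonoid X) (FreeMonoid.lift a)
    (FreeAlgebra.equivMonoidAlgebraFreeMonoid f) = _
  rw [MonoidAlgebra.lift_apply]
  simp only [FreeMonoid.lift_apply]
  rfl

theorem prod_ite {l : ℕ} (P : Fin l → Prop) [DecidablePred P] (y : Fin l → R) :
    (List.ofFn fun t => if P t then y t else 0).prod =
      if ∀ t, P t then (List.ofFn y).prod else 0 := by
  by_cases h : ∀ t, P t
  · rw [if_pos h]
    congr 2
    funext t
    rw [if_pos (h t)]
  · rw [if_neg h]
    push Not at h
    obtain ⟨t, ht⟩ := h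
    apply List.prod_eq_zero
    rw [List.mem_ofFn]
    exact ⟨t, by rw [if_neg ht]⟩

open Classical in
/-- Inclusion-exclusion for the image of a function. -/
theorem sum_sign {l d : ℕ} (h : Fin l → Fin d) :
    ∑ T : Finset (Fin d), (-1 : F) ^ T.card * (if ∀ t, h t ∉ T then 1 else 0) =
      if Function.Surjective h then 1 else 0 := by
  set U : Finset (Fin d) := (Finset.univ.image h)ᶜ with hU
  have h1 : ∀ T : Finset (Fin d), (∀ t, h t ∉ T) ↔ T ∈ U.powerset := by
    intro T
    rw [Finset.mem_powerset]
    constructor
    · intro hT s hs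
      rw [hU, Finset.mem_compl, Finset.mem_image]
      rintro ⟨t, _, rfl⟩
      exact hT t hs
    · intro hT t ht
      have := hT ht
      rw [hU, Finset.mem_compl, Finset.mem_image] at this
      exact this ⟨t, Finset.mem_univ _, rfl⟩
  have h2 : ∑ T : Finset (Fin d), (-1 : F) ^ T.card * (if ∀ t, h t ∉ T then 1 else 0) =
      ∑ T ∈ U.powerset, (-1 : F) ^ T.card := by
    rw [← Finset.sum_filter_add_sum_filter_not Finset.univ (fun T => T ∈ U.powerset)]
    rw [Finset.sum_congr rfl (g := fun T => (-1 : F) ^ T.card), Finset.sum_eq_zero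
      (s := Finset.univ.filter fun T => ¬ T ∈ U.powerset)]
    · rw [add_zero]
      congr 1
      ext T
      simp
    · intro T hT
      rw [Finset.mem_filter] at hT
      rw [if_neg (fun h => hT.2 ((h1 T).mp h)), mul_zero]
    · intro T hT
      rw [Finset.mem_filter] at hT
      rw [if_pos ((h1 T).mpr hT.2), mul_one]
  rw [h2]
  have h3 := Finset.sum_powerset_neg_one_pow_card (x := U)
  have h4 : ∑ T ∈ U.powerset, (-1 : F) ^ T.card = if U = ∅ then 1 else 0 := by
    have := congrArg (Int.cast : ℤ → F) h3
    push_cast at this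
    exact this
  rw [h4]
  congr 1
  rw [eq_iff_iff, hU, Finset.compl_eq_empty_iff, Finset.eq_univ_iff_forall]
  constructor
  · intro h s
    have := h s
    rw [Finset.mem_image] at this
    obtain ⟨t, _, ht⟩ := this
    exact ⟨t, ht⟩
  · intro h s
    rw [Finset.mem_image]
    obtain ⟨t, ht⟩ := h s
    exact ⟨t, Finset.mem_univ _, ht⟩

open Classical in
/-- The substitution used for polarisation. -/
noncomputable def subst {d : ℕ} (c : Fin d → X) (y : Fin d → R) (T : Finset (Fin d)) (i : X) : R :=
  ∑ j, if j ∉ T ∧ c j = i then y j else 0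

theorem subst_mem {J : Submodule F R} {d : ℕ} (c : Fin d → X) {y : Fin d → R}
    (hy : ∀ i, y i ∈ J) (T : Finset (Fin d)) (i : X) : subst c y T i ∈ J := by
  classical
  refine Submodule.sum_mem _ fun j _ => ?_
  split_ifs
  · exact hy j
  · exact Submodule.zero_mem _

open Classical in
theorem polar_word {d : ℕ} (c : Fin d → X) (y : Fin d → R) (l : ℕ) (hl : l ≤ d) (v : Fin l → X) :
    ∑ T : Finset (Fin d), ((-1 : F) ^ T.card) • (List.ofFn fun t => subst c y T (v t)).prod =
      ∑ σ : Equiv.Perm (Fin d), if List.ofFn v = List.ofFn (c ∘ σ) then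
        (List.ofFn fun t => y (σ t)).prod else 0 := by
  have h1 : ∀ T : Finset (Fin d), (List.ofFn fun t => subst c y T (v t)).prod =
      ∑ h : Fin l → Fin d, (if ∀ t, (h t ∉ T ∧ c (h t) = v t) then
        (List.ofFn fun t => y (h t)).prod else 0) := by
    intro T
    have h2 := (MultilinearMap.mkPiAlgebraFin F l R).map_sum
      (fun (t : Fin l) (j : Fin d) => if j ∉ T ∧ c j = v t then y j else 0)
    simp only [MultilinearMap.mkPiAlgebraFin_apply] at h2
    have h3 : (List.ofFn fun t => subst c y T (v t)).prod =
      (List.ofFn fun t => ∑ j, if j ∉ T ∧ c j = v t then y j else 0).prod := rfl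
    rw [h3, h2]
    refine Finset.sum_congr rfl fun h _ => ?_
    exact prod_ite (fun t => h t ∉ T ∧ c (h t) = v t) (fun t => y (h t))
  simp only [h1, Finset.smul_sum]
  rw [Finset.sum_comm]
  have h4 : ∀ h : Fin l → Fin d,
      ∑ T : Finset (Fin d), ((-1 : F) ^ T.card) • (if ∀ t, (h t ∉ T ∧ c (h t) = v t) then
        (List.ofFn fun t => y (h t)).prod else 0) =
      (if Function.Surjective h ∧ (∀ t, c (h t) = v t) then
        (List.ofFn fun t => y (h t)).prod else 0) := by
    intro h
    by_cases hc : ∀ t, c (h t) = v t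
    · have h5 : ∀ T : Finset (Fin d), ((-1 : F) ^ T.card) •
          (if ∀ t, (h t ∉ T ∧ c (h t) = v t) then (List.ofFn fun t => y (h t)).prod else 0) =
          ((-1 : F) ^ T.card * (if ∀ t, h t ∉ T then 1 else 0)) •
            (List.ofFn fun t => y (h t)).prod := by
        intro T
        by_cases hT : ∀ t, h t ∉ T
        · rw [if_pos (fun t => ⟨hT t, hc t⟩), if_pos hT, mul_one]
        · rw [if_neg (fun hh => hT fun t => (hh t).1), if_neg hT, mul_zero, zero_smul, smul_zero]
      simp only [h5]
      rw [← Finset.sum_smul, sum_sign]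
      by_cases hs : Function.Surjective h
      · rw [if_pos hs, if_pos ⟨hs, hc⟩, one_smul]
      · rw [if_neg hs, if_neg (fun hh => hs hh.1), zero_smul]
    · rw [if_neg (fun hh => hc hh.2)]
      refine Finset.sum_eq_zero fun T _ => ?_
      rw [if_neg (fun hh => hc fun t => (hh t).2), smul_zero]
  simp only [h4]
  rcases Nat.lt_or_ge l d with hlt | hge
  · rw [Finset.sum_eq_zero, Finset.sum_eq_zero]
    · intro σ _
      rw [if_neg]
      intro e
      have := congrArg List.length e
      rw [List.length_ofFn, List.length_ofFn] at this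
      omega
    · intro h _
      rw [if_neg]
      rintro ⟨hs, _⟩
      have := Fintype.card_le_of_surjective h hs
      rw [Fintype.card_fin, Fintype.card_fin] at this
      omega
  · obtain rfl : l = d := le_antisymm hl hge
    symm
    refine Finset.sum_of_injOn (fun σ : Equiv.Perm (Fin l) => (σ : Fin l → Fin l)) ?_ ?_ ?_ ?_
    · intro σ _ τ _ h
      exact DFunLike.coe_injective h
    · intro σ _
      simp
    · intro h _ hh
      rw [if_neg]
      rintro ⟨hs, _⟩
      apply hh
      refine ⟨Equiv.ofBijective h ?_, by simp, ?_⟩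
      · exact (Finite.injective_iff_surjective.mpr hs : Function.Injective h) |> fun hi => ⟨hi, hs⟩
      · rfl
    · intro σ _
      have hiff : (List.ofFn v = List.ofFn (c ∘ σ)) ↔
          (Function.Surjective (σ : Fin l → Fin l) ∧ ∀ t, c (σ t) = v t) := by
        constructor
        · intro e
          have := List.ofFn_injective e
          exact ⟨σ.surjective, fun t => (congrFun this t).symm⟩
        · rintro ⟨_, h⟩
          congr 1
          funext t
          exact (h t).symm
      by_cases hh : List.ofFn v = List.ofFn (c ∘ σ)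
      · rw [if_pos hh, if_pos (hiff.mp hh)]
      · rw [if_neg hh, if_neg (fun h => hh (hiff.mpr h))]

/-- Multilinearisation: a nonzero noncommutative polynomial vanishing on `J` yields a multilinear
identity of `J`. -/
theorem exists_hasIdent {J : Submodule F R} {f : FreeAlgebra F X} (hf : f ≠ 0)
    (hJ : ∀ a : X → R, (∀ i, a i ∈ J) → FreeAlgebra.lift F a f = 0) : ∃ d, HasIdent J d := by
  classical
  have hcf := cf_ne_zero hf
  have hne : (cf f).support.Nonempty := Finsupp.support_nonempty_iff.mpr hcf
  obtain ⟨w0, hw0, hmax⟩ := Finset.exists_max_image (cf f).support (fun w => w.toList.length) hne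
  set d := w0.toList.length with hd
  set c : Fin d → X := fun i => w0.toList.get i with hc
  have hofn : List.ofFn c = w0.toList := List.ofFn_get _
  have hc0 : cf f w0 ≠ 0 := Finsupp.mem_support_iff.mp hw0
  refine ⟨d, fun σ => (cf f w0)⁻¹ * cf f (FreeMonoid.ofList (List.ofFn (c ∘ σ))), ?_, ?_⟩
  · have : c ∘ (1 : Equiv.Perm (Fin d)) = c := rfl
    change (cf f w0)⁻¹ * cf f (FreeMonoid.ofList (List.ofFn (c ∘ (1 : Equiv.Perm (Fin d))))) = 1
    rw [this, hofn, FreeMonoid.ofList_toList]
    exact inv_mul_cancel₀ hc0
  · intro y hy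
    have hsum : ∑ T : Finset (Fin d), ((-1 : F) ^ T.card) •
        FreeAlgebra.lift F (subst c y T) f = 0 := by
      refine Finset.sum_eq_zero fun T _ => ?_
      rw [hJ _ (subst_mem c hy T), smul_zero]
    have hword : ∀ w ∈ (cf f).support,
        ∑ T : Finset (Fin d), ((-1 : F) ^ T.card) • (w.toList.map (subst c y T)).prod =
        ∑ σ : Equiv.Perm (Fin d), if w = FreeMonoid.ofList (List.ofFn (c ∘ σ)) then
          (List.ofFn fun t => y (σ t)).prod else 0 := by
      intro w hw
      have h1 := polar_word (F := F) c y w.toList.length (hmax w hw) (fun i => w.toList.get i)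
      have h2 : List.ofFn (fun i => w.toList.get i) = w.toList := List.ofFn_get _
      have h3 : ∀ T : Finset (Fin d), (List.ofFn fun t : Fin w.toList.length =>
          subst c y T (w.toList.get t)) = w.toList.map (subst c y T) := by
        intro T
        conv_rhs => rw [← h2]
        rw [List.map_ofFn]
        rfl
      simp only [h3, h2] at h1
      rw [h1]
      refine Finset.sum_congr rfl fun σ _ => ?_
      congr 1
    simp only [lift_eq_sum, Finsupp.sum, Finset.smul_sum] at hsum
    rw [Finset.sum_comm] at hsum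
    have h5 : ∑ w ∈ (cf f).support, cf f w • ∑ T : Finset (Fin d),
        ((-1 : F) ^ T.card) • (w.toList.map (subst c y T)).prod = 0 := by
      rw [← hsum]
      refine Finset.sum_congr rfl fun w _ => ?_
      rw [Finset.smul_sum]
      refine Finset.sum_congr rfl fun T _ => ?_
      rw [smul_comm]
    have h6 : ∑ σ : Equiv.Perm (Fin d), cf f (FreeMonoid.ofList (List.ofFn (c ∘ σ))) •
        (List.ofFn fun t => y (σ t)).prod = 0 := by
      have h7 : ∑ w ∈ (cf f).support, cf f w • ∑ σ : Equiv.Perm (Fin d),
          (if w = FreeMonoid.ofList (List.ofFn (c ∘ σ)) then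
            (List.ofFn fun t => y (σ t)).prod else 0) = 0 := by
        refine Eq.trans ?_ h5
        exact Finset.sum_congr rfl fun w hw => by rw [hword w hw]
      refine Eq.trans ?_ h7
      simp only [Finset.smul_sum]
      rw [Finset.sum_comm]
      refine Finset.sum_congr rfl fun σ _ => ?_
      simp only [smul_ite, smul_zero]
      rw [Finset.sum_ite_eq']
      split_ifs with h
      · rfl
      · rw [Finsupp.notMem_support_iff.mp h, zero_smul]
    simp only [mul_smul]
    rw [← Finset.smul_sum, h6, smul_zero]

end Pool.Agent.JordanPI
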