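import Mathlib
import Pool.Agent.JordanPI.Cohn
import Pool.Agent.JordanPI.MatS
import Pool.Agent.JordanPI.Multilin
import Pool.Agent.JordanPI.Embed

set_option autoImplicit false

open Finset

namespace Pool.Agent.JordanPI

section Tp

variable {F : Type*} [Field F] {R : Type*} [Ring R] [Algebra F R]

/-- A subspace of an associative algebra closed under `a b + b a`. -/
structure JSub (F : Type*) [Field F] (R : Type*) [Ring R] [Algebra F R] where
  /-- The underlying subspace. -/
  sub : Submodule F R
  closed : ∀ a ∈ sub, ∀ b ∈ sub, a * b + b * a ∈ sub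

/-- The Jordan algebra carried by a Jordan-closed subspace. -/
def JSub.T (J : JSub F R) : Type _ := J.sub

namespace JSub

variable (J : JSub F R)

instance : AddCommGroup J.T := inferInstanceAs (AddCommGroup J.sub)
instance : Module F J.T := inferInstanceAs (Module F J.sub)

/-- The inclusion. -/
def incl : J.T →ₗ[F] R := J.sub.subtype

theorem incl_injective : Function.Injective J.incl := Subtype.val_injective

theorem incl_mem (a : J.T) : J.incl a ∈ J.sub := a.2

theorem mul_closed (a b : J.T) :
    (2⁻¹ : F) • (J.incl a * J.incl b + J.incl b * J.incl a) ∈ J.sub :=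
  J.sub.smul_mem _ (J.closed _ a.2 _ b.2)

instance : Mul J.T := ⟨fun a b => ⟨_, J.mul_closed a b⟩⟩

theorem incl_mul (a b : J.T) :
    J.incl (a * b) = (2⁻¹ : F) • (J.incl a * J.incl b + J.incl b * J.incl a) := rfl

instance : NonUnitalNonAssocRing J.T :=
  { (inferInstance : AddCommGroup J.T), (inferInstance : Mul J.T) with
    left_distrib := fun a b c => by
      apply J.incl_injective
      rw [map_add, incl_mul, incl_mul, incl_mul, map_add, ← smul_add]
      congr 1
      noncomm_ring
    right_distrib := fun a b c => by
      apply J.incl_injective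
      rw [map_add, incl_mul, incl_mul, incl_mul, map_add, ← smul_add]
      congr 1
      noncomm_ring
    zero_mul := fun a => by
      apply J.incl_injective
      rw [incl_mul, map_zero]
      simp
    mul_zero := fun a => by
      apply J.incl_injective
      rw [incl_mul, map_zero]
      simp }

instance : IsScalarTower F J.T J.T :=
  ⟨fun c a b => by
    apply J.incl_injective
    rw [smul_eq_mul, smul_eq_mul, incl_mul, map_smul, map_smul, incl_mul, smul_mul_assoc,
      mul_smul_comm, ← smul_add, smul_comm]⟩

instance : SMulCommClass F J.T J.T :=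
  ⟨fun c a b => by
    apply J.incl_injective
    rw [smul_eq_mul, smul_eq_mul, incl_mul, map_smul, map_smul, incl_mul, smul_mul_assoc,
      mul_smul_comm, ← smul_add, smul_comm]⟩

end JSub

/-- Matrices with entries in a subalgebra. -/
def matSub (A : Subalgebra F R) (μ : Type*) [Fintype μ] [DecidableEq μ] :
    Subalgebra F (Matrix μ μ R) where
  carrier := {M | ∀ i j, M i j ∈ A}
  mul_mem' := by
    intro a b ha hb i j
    rw [Matrix.mul_apply]
    exact A.sum_mem fun k _ => A.mul_mem (ha i k) (hb k j)
  add_mem' := by
    intro a b ha hb i j
    exact A.add_mem (ha i j) (hb i j)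
  algebraMap_mem' := by
    intro c i j
    rw [Matrix.algebraMap_matrix_apply]
    split_ifs
    · exact A.algebraMap_mem c
    · exact A.zero_mem

end Tp

end Pool.Agent.JordanPI
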